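import Pool.Agent.Helper90_CRP.Geo4

namespace Pool.Agent.CRP.H90

open MeasureTheory Filter Topology Set Pool.Agent.CRP

/-- the frame `(g e, g f)` in terms of the columns of `g` -/
def fr (w : (ℝ × ℝ) × (ℝ × ℝ)) (z : (ℝ × ℝ) × (ℝ × ℝ)) : (ℝ × ℝ) × (ℝ × ℝ) :=
  (w.1.1 • z.1 + w.1.2 • z.2, w.2.1 • z.1 + w.2.2 • z.2)

theorem null_fr (w : (ℝ × ℝ) × (ℝ × ℝ)) (hw : w.1.1 * w.2.2 - w.1.2 * w.2.1 ≠ 0)
    {N : Set ((ℝ × ℝ) × (ℝ × ℝ))} (hN : volume N = 0) : volume (fr w ⁻¹' N) = 0 := by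
  have hH1 : (volume : Measure (ℝ × ℝ)).IsAddHaarMeasure := by
    rw [Measure.volume_eq_prod]; infer_instance
  have hH2 : (volume : Measure ((ℝ × ℝ) × (ℝ × ℝ))).IsAddHaarMeasure := by
    rw [Measure.volume_eq_prod]
    exact Measure.prod.instIsAddHaarMeasure _ _
  set D := w.1.1 * w.2.2 - w.1.2 * w.2.1 with hD
  set S : (ℝ × ℝ) × (ℝ × ℝ) → (ℝ × ℝ) × (ℝ × ℝ) := fun z =>
    ((D⁻¹ * w.2.2) • z.1 - (D⁻¹ * w.1.2) • z.2, (D⁻¹ * w.1.1) • z.2 - (D⁻¹ * w.2.1) • z.1) with hS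
  have hd : DifferentiableOn ℝ S N := by
    have : Differentiable ℝ S := by fun_prop
    exact this.differentiableOn
  have h0 := MeasureTheory.addHaar_image_eq_zero_of_differentiableOn_of_addHaar_eq_zero volume hd hN
  refine measure_mono_null ?_ h0
  rintro ⟨⟨a, b⟩, ⟨c, d⟩⟩ hz
  refine ⟨fr w ((a, b), (c, d)), hz, ?_⟩
  have h1 : D⁻¹ * D = 1 := inv_mul_cancel₀ hw
  simp only [hS, fr, Prod.smul_mk, Prod.mk_add_mk, Prod.mk_sub_mk, smul_eq_mul, Prod.mk.injEq]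
  refine ⟨⟨?_, ?_⟩, ?_, ?_⟩
  · linear_combination a * h1
  · linear_combination b * h1
  · linear_combination c * h1
  · linear_combination d * h1

theorem det_fr (w z : (ℝ × ℝ) × (ℝ × ℝ)) :
    (fr w z).1.1 * (fr w z).2.2 - (fr w z).1.2 * (fr w z).2.1
      = (w.1.1 * w.2.2 - w.1.2 * w.2.1) * (z.1.1 * z.2.2 - z.1.2 * z.2.1) := by
  simp only [fr, Prod.smul_fst, Prod.smul_snd, Prod.fst_add, Prod.snd_add, smul_eq_mul]
  ring

theorem QF_eval (z : (ℝ × ℝ) × (ℝ × ℝ)) (x : ℝ) :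
    (QF z).1 + (QF z).2.1 * x + (QF z).2.2 * x ^ 2
      = (z.1.1 + x * z.2.1) ^ 2 + (z.1.2 + x * z.2.2) ^ 2 := by
  simp only [QF]; ring

variable {M : Type*} [TopologicalSpace M]

/-- The statement for one frame and one compact set of forms. -/
theorem one_frame [T2Space M] [SecondCountableTopology M] (an : AnStmt) (A : TransAtlas M) (p : M)
    (w : (ℝ × ℝ) × (ℝ × ℝ)) (hw : w.1.1 * w.2.2 - w.1.2 * w.2.1 ≠ 0) (K : ℝ) (hK : 1 ≤ K) :
    ∀ᵐ Q : ℝ × ℝ × ℝ, (|Q.1| ≤ K ∧ |Q.2.1| ≤ K ∧ |Q.2.2| ≤ K ∧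
        ∀ x ∈ Icc (-1:ℝ) 1, K⁻¹ ≤ Q.1 + Q.2.1 * x + Q.2.2 * x ^ 2) →
      ∀ q : M, ∃ U ∈ 𝓝 q, ¬ ∃ t : ℕ → ℝ, Tendsto t atTop atTop ∧
        ∀ᵐ x : ℝ ∂(volume.restrict (Icc (-1) 1)), ∀ᶠ n in atTop,
          (t n / √(Q.1 + Q.2.1 * x + Q.2.2 * x ^ 2)) • (w.1 + x • w.2) ∈ Hit A p U := by
  obtain ⟨c, hc, hAN⟩ := an K hK
  -- bounds for the norms of the vectors `w.1 + x w.2`
  set D := w.1.1 * w.2.2 - w.1.2 * w.2.1 with hD
  set B : ℝ := ‖w.1‖ + ‖w.2‖ + 1 with hB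
  have hBpos : 0 < B := by positivity
  have hup : ∀ x ∈ Icc (-1:ℝ) 1, ‖w.1 + x • w.2‖ ≤ B := by
    intro x hx
    have h1 : ‖x • w.2‖ ≤ ‖w.2‖ := by
      rw [norm_smul, Real.norm_eq_abs]
      have : |x| ≤ 1 := abs_le.2 hx
      nlinarith [norm_nonneg w.2]
    have := norm_add_le w.1 (x • w.2)
    rw [hB]; linarith
  set m : ℝ := |D| / (2 * B) with hm
  have hDpos : 0 < |D| := abs_pos.2 hw
  have hmpos : 0 < m := by positivity
  have hlow : ∀ x ∈ Icc (-1:ℝ) 1, m ≤ ‖w.1 + x • w.2‖ := by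
    intro x hx
    set y := w.1 + x • w.2 with hy
    have h1 : D = y.1 * w.2.2 - y.2 * w.2.1 := by
      rw [hy, hD]
      simp only [Prod.fst_add, Prod.snd_add, Prod.smul_fst, Prod.smul_snd, smul_eq_mul]; ring
    have a1 : |y.1| ≤ ‖y‖ := by
      rw [← Real.norm_eq_abs]; exact norm_fst_le y
    have a2 : |y.2| ≤ ‖y‖ := by
      rw [← Real.norm_eq_abs]; exact norm_snd_le y
    have a3 : |w.2.1| ≤ B := by
      have := norm_fst_le w.2
      rw [Real.norm_eq_abs] at this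
      have := norm_nonneg w.1
      rw [hB]; linarith
    have a4 : |w.2.2| ≤ B := by
      have := norm_snd_le w.2
      rw [Real.norm_eq_abs] at this
      have := norm_nonneg w.1
      rw [hB]; linarith
    have h2 : |D| ≤ ‖y‖ * B + ‖y‖ * B := by
      rw [h1]
      calc |y.1 * w.2.2 - y.2 * w.2.1| ≤ |y.1 * w.2.2| + |y.2 * w.2.1| := abs_sub _ _
        _ = |y.1| * |w.2.2| + |y.2| * |w.2.1| := by rw [abs_mul, abs_mul]
        _ ≤ ‖y‖ * B + ‖y‖ * B := by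
            have := norm_nonneg y
            gcongr
    rw [hm, div_le_iff₀ (by positivity)]; linarith
  -- choice of chart, radius and neighbourhood for every point
  have hch : ∀ q : M, ∃ φ ∈ A.charts, q ∈ φ.source ∧ ∃ r > 0, Metric.ball (φ q) r ⊆ φ.target := by
    intro q
    obtain ⟨φ, hφ, hq⟩ := A.cover q
    obtain ⟨r, hr, hb⟩ := Metric.isOpen_iff.1 φ.open_target _ (φ.map_source hq)
    exact ⟨φ, hφ, hq, r, hr, hb⟩
  choose φ hφ hq r hr hb using hch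
  set ε : M → ℝ := fun q => r q * (c * m / (4 * (c * m + B))) with hε
  have hcm : 0 < c * m := by positivity
  have hκ : c * m / (4 * (c * m + B)) < 1 / 4 := by
    rw [div_lt_div_iff₀ (by positivity) (by norm_num)]; linarith
  have hκ0 : 0 < c * m / (4 * (c * m + B)) := by positivity
  have hεpos : ∀ q, 0 < ε q := fun q => mul_pos (hr q) hκ0
  set U : M → Set M := fun q => (φ q).source ∩ (φ q) ⁻¹' Metric.ball (φ q q) (ε q) with hU
  have hUo : ∀ q, IsOpen (U q) := fun q =>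
    (φ q).continuousOn.isOpen_inter_preimage (φ q).open_source Metric.isOpen_ball
  have hUq : ∀ q, q ∈ U q := fun q => ⟨hq q, Metric.mem_ball_self (hεpos q)⟩
  obtain ⟨s, hs, hcov⟩ := TopologicalSpace.countable_cover_nhds (f := U)
    (fun q => (hUo q).mem_nhds (hUq q))
  have hcts : Continuous (fun y : ℝ × ℝ => y.1 • w.1 + y.2 • w.2) := by fun_prop
  have hone : ∀ i ∈ s, ∀ᵐ Q : ℝ × ℝ × ℝ, (|Q.1| ≤ K ∧ |Q.2.1| ≤ K ∧ |Q.2.2| ≤ K ∧
        ∀ x ∈ Icc (-1:ℝ) 1, K⁻¹ ≤ Q.1 + Q.2.1 * x + Q.2.2 * x ^ 2) →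
      ¬ ∃ t : ℕ → ℝ, Tendsto t atTop atTop ∧
        ∀ᵐ x : ℝ ∂(volume.restrict (Icc (-1) 1)), ∀ᶠ n in atTop,
          (t n / √(Q.1 + Q.2.1 * x + Q.2.2 * x ^ 2)) • ((1:ℝ), x) ∈
            (fun y : ℝ × ℝ => y.1 • w.1 + y.2 • w.2) ⁻¹' (Hit A p (U i)) := by
    intro i _
    refine hAN _ (2 * ε i / m) ((r i - ε i) / B) ((hit_open (hUo i)).preimage hcts) ?_ ?_ ?_ ?_
    · have : ε i < r i := by
        simp only [hε]; nlinarith [hr i]
      exact div_pos (by linarith) hBpos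
    · have := hεpos i; positivity
    · have h1 : ε i * (4 * (c * m + B)) = r i * (c * m) := by
        simp only [hε]; field_simp
      rw [div_le_iff₀ hmpos]
      have h2 : c * ((r i - ε i) / B) * m = (c * m) * (r i - ε i) / B := by ring
      rw [h2, le_div_iff₀ hBpos]
      nlinarith [hεpos i, hr i, mul_pos (hεpos i) hBpos, mul_pos (hεpos i) hcm]
    · intro x hx s₁ s₂ h0 h12 h1 h2
      have e1 : ∀ σ : ℝ, (σ • ((1:ℝ), x)).1 • w.1 + (σ • ((1:ℝ), x)).2 • w.2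
          = σ • (w.1 + x • w.2) := by
        intro σ
        simp only [Prod.smul_mk, smul_eq_mul, mul_one, smul_add, smul_smul]
      rw [mem_preimage, e1] at h1 h2
      have hgap := hit_gap (q := i) (hφ i) (hb i) (w.1 + x • w.2) h0 h12 h1 h2
      have hpos : 0 < s₂ - s₁ := by linarith
      rcases hgap with hg | hg
      · left
        rw [lt_div_iff₀ hmpos]
        have := mul_le_mul_of_nonneg_left (hlow x hx) hpos.le
        linarith
      · right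
        rw [div_le_iff₀ hBpos]
        have := mul_le_mul_of_nonneg_left (hup x hx) hpos.le
        linarith
  have hall : ∀ᵐ Q : ℝ × ℝ × ℝ, ∀ i ∈ s, (|Q.1| ≤ K ∧ |Q.2.1| ≤ K ∧ |Q.2.2| ≤ K ∧
        ∀ x ∈ Icc (-1:ℝ) 1, K⁻¹ ≤ Q.1 + Q.2.1 * x + Q.2.2 * x ^ 2) →
      ¬ ∃ t : ℕ → ℝ, Tendsto t atTop atTop ∧
        ∀ᵐ x : ℝ ∂(volume.restrict (Icc (-1) 1)), ∀ᶠ n in atTop,
          (t n / √(Q.1 + Q.2.1 * x + Q.2.2 * x ^ 2)) • ((1:ℝ), x) ∈
            (fun y : ℝ × ℝ => y.1 • w.1 + y.2 • w.2) ⁻¹' (Hit A p (U i)) :=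
    (ae_ball_iff hs).2 hone
  filter_upwards [hall] with Q hQ hbd q
  have hqc : q ∈ ⋃ x ∈ s, U x := by rw [hcov]; trivial
  obtain ⟨i, hi, hqi⟩ := mem_iUnion₂.1 hqc
  refine ⟨U i, (hUo i).mem_nhds hqi, ?_⟩
  rintro ⟨t, ht, hae⟩
  refine hQ i hi hbd ⟨t, ht, hae.mono fun x hx => hx.mono fun n hn => ?_⟩
  rw [mem_preimage]
  have e1 : ∀ σ : ℝ, (σ • ((1:ℝ), x)).1 • w.1 + (σ • ((1:ℝ), x)).2 • w.2
      = σ • (w.1 + x • w.2) := by
    intro σ
    simp only [Prod.smul_mk, smul_eq_mul, mul_one, smul_add, smul_smul]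
  rw [e1]; exact hn

/-- The core statement (from the analytic half). -/
theorem core [T2Space M] [SecondCountableTopology M] (an : AnStmt) (A : TransAtlas M) (p : M) :
    ∀ᵐ z : (ℝ × ℝ) × (ℝ × ℝ), ∀ g : (ℝ × ℝ) ≃L[ℝ] (ℝ × ℝ), g (1, 0) = z.1 → g (0, 1) = z.2 →
      ∀ (q : M) (α β : ℝ), α < β → ∃ U ∈ 𝓝 q, ¬ ∃ t : ℕ → ℝ, Tendsto t atTop atTop ∧
        ∀ᵐ θ : ℝ ∂(volume.restrict (Ioo α β)), ∀ᶠ n in atTop,
          t n • g.symm (Real.cos θ, Real.sin θ) ∈ Hit A p U := by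
  -- cast of a rational frame
  set R : (ℚ × ℚ) × (ℚ × ℚ) → (ℝ × ℝ) × (ℝ × ℝ) := fun w =>
    (((w.1.1 : ℝ), (w.1.2 : ℝ)), ((w.2.1 : ℝ), (w.2.2 : ℝ))) with hR
  have h1 : ∀ w : (ℚ × ℚ) × (ℚ × ℚ), ∀ K : ℕ, ∀ᵐ z : (ℝ × ℝ) × (ℝ × ℝ),
      (R w).1.1 * (R w).2.2 - (R w).1.2 * (R w).2.1 ≠ 0 → z.1.1 * z.2.2 - z.1.2 * z.2.1 ≠ 0 →
      (|(QF (fr (R w) z)).1| ≤ (K + 1 : ℝ) ∧ |(QF (fr (R w) z)).2.1| ≤ (K + 1 : ℝ) ∧
        |(QF (fr (R w) z)).2.2| ≤ (K + 1 : ℝ) ∧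
        ∀ x ∈ Icc (-1:ℝ) 1, (K + 1 : ℝ)⁻¹ ≤ (QF (fr (R w) z)).1 + (QF (fr (R w) z)).2.1 * x
          + (QF (fr (R w) z)).2.2 * x ^ 2) →
      ∀ q : M, ∃ U ∈ 𝓝 q, ¬ ∃ t : ℕ → ℝ, Tendsto t atTop atTop ∧
        ∀ᵐ x : ℝ ∂(volume.restrict (Icc (-1) 1)), ∀ᶠ n in atTop,
          (t n / √((QF (fr (R w) z)).1 + (QF (fr (R w) z)).2.1 * x
            + (QF (fr (R w) z)).2.2 * x ^ 2)) • ((R w).1 + x • (R w).2) ∈ Hit A p U := by
    intro w K
    by_cases hw : (R w).1.1 * (R w).2.2 - (R w).1.2 * (R w).2.1 ≠ 0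
    · have h2 := one_frame an A p (R w) hw (K + 1 : ℝ) (by
        have : (0:ℝ) ≤ K := Nat.cast_nonneg K
        linarith)
      have h3 := null_QF h2
      have h4 := null_fr (R w) hw h3
      rw [ae_iff]
      refine measure_mono_null ?_ h4
      intro z hz
      rw [mem_ofPred_eq] at hz
      push Not at hz
      obtain ⟨_, hz2, hz3, q, hz4⟩ := hz
      refine ⟨?_, ?_⟩
      · rw [det_fr]; exact mul_ne_zero hw hz2
      · intro hcon
        obtain ⟨U, hU, hno⟩ := hcon hz3 q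
        obtain ⟨t, ht1, ht2⟩ := hz4 U hU
        exact hno ⟨t, ht1, ht2⟩
    · exact Eventually.of_forall fun z hw' => absurd hw' hw
  have h2 : ∀ᵐ z : (ℝ × ℝ) × (ℝ × ℝ), ∀ w : (ℚ × ℚ) × (ℚ × ℚ), ∀ K : ℕ, _ :=
    ae_all_iff.2 fun w => ae_all_iff.2 fun K => h1 w K
  filter_upwards [h2] with z hz g hg1 hg2 q α β hαβ
  obtain ⟨w, hw, hcone⟩ := exists_frame g hαβ
  -- columns and determinant
  have hgen : ∀ y : ℝ × ℝ, g y = y.1 • z.1 + y.2 • z.2 := by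
    intro y
    have : y = y.1 • ((1:ℝ), (0:ℝ)) + y.2 • ((0:ℝ), (1:ℝ)) := by
      ext <;> simp
    conv_lhs => rw [this]
    rw [map_add, map_smul, map_smul, hg1, hg2]
  have hdz : z.1.1 * z.2.2 - z.1.2 * z.2.1 ≠ 0 := by
    intro h0
    have h3 : g (z.2.2, -z.1.2) = 0 ∧ g (z.2.1, -z.1.1) = 0 := by
      constructor
      · rw [hgen]; ext
        · show z.2.2 * z.1.1 + (-z.1.2) * z.2.1 = 0; linarith
        · show z.2.2 * z.1.2 + (-z.1.2) * z.2.2 = 0; ring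
      · rw [hgen]; ext
        · show z.2.1 * z.1.1 + (-z.1.1) * z.2.1 = 0; ring
        · show z.2.1 * z.1.2 + (-z.1.1) * z.2.2 = 0; linarith
    have h4 : ((z.2.2, -z.1.2) : ℝ × ℝ) = 0 := g.injective (by rw [h3.1, map_zero])
    have h5 : ((z.2.1, -z.1.1) : ℝ × ℝ) = 0 := g.injective (by rw [h3.2, map_zero])
    have h6 : z.1.2 = 0 := by have := congrArg Prod.snd h4; simpa using this
    have h7 : z.1.1 = 0 := by have := congrArg Prod.snd h5; simpa using this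
    have h8 : g (1, 0) = 0 := by rw [hg1]; exact Prod.ext h7 h6
    have h9 : ((1, 0) : ℝ × ℝ) = 0 := g.injective (by rw [h8, map_zero])
    have := congrArg Prod.fst h9
    norm_num at this
  set W := fr (R w) z with hW
  have hW1 : g (R w).1 = W.1 := by rw [hgen]; rfl
  have hW2 : g (R w).2 = W.2 := by rw [hgen]; rfl
  have hdW : W.1.1 * W.2.2 - W.1.2 * W.2.1 ≠ 0 := by
    rw [hW, det_fr]; exact mul_ne_zero hw hdz
  -- positivity of the form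
  have hQpos : ∀ x : ℝ, 0 < (QF W).1 + (QF W).2.1 * x + (QF W).2.2 * x ^ 2 := by
    intro x
    rw [QF_eval]
    rcases eq_or_ne (W.1.1 + x * W.2.1) 0 with ha | ha
    · rcases eq_or_ne (W.1.2 + x * W.2.2) 0 with hb | hb
      · exfalso; apply hdW
        have : W.1.1 = -(x * W.2.1) := by linarith
        have h' : W.1.2 = -(x * W.2.2) := by linarith
        rw [this, h']; ring
      · positivity
    · positivity
  obtain ⟨x₀, _, hx₀⟩ := isCompact_Icc.exists_isMinOn (s := Icc (-1:ℝ) 1) ⟨0, by norm_num⟩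
    (f := fun x => (QF W).1 + (QF W).2.1 * x + (QF W).2.2 * x ^ 2)
    (Continuous.continuousOn (by fun_prop))
  obtain ⟨K, hKb⟩ := exists_nat_ge (max (max |(QF W).1| |(QF W).2.1|) (max |(QF W).2.2|
    ((QF W).1 + (QF W).2.1 * x₀ + (QF W).2.2 * x₀ ^ 2)⁻¹))
  have b1 : |(QF W).1| ≤ K := ((le_max_left _ _).trans (le_max_left _ _)).trans hKb
  have b2 : |(QF W).2.1| ≤ K := ((le_max_right _ _).trans (le_max_left _ _)).trans hKb
  have b3 : |(QF W).2.2| ≤ K := ((le_max_left _ _).trans (le_max_right _ _)).trans hKb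
  have b4 : ((QF W).1 + (QF W).2.1 * x₀ + (QF W).2.2 * x₀ ^ 2)⁻¹ ≤ K :=
    ((le_max_right _ _).trans (le_max_right _ _)).trans hKb
  obtain ⟨U, hU, hno⟩ := hz w K hw hdz ⟨by linarith, by linarith, by linarith, by
    intro x hx
    have h3 := hx₀ hx
    have h3' : (QF W).1 + (QF W).2.1 * x₀ + (QF W).2.2 * x₀ ^ 2
      ≤ (QF W).1 + (QF W).2.1 * x + (QF W).2.2 * x ^ 2 := h3
    have h4 := hQpos x₀
    have h5 : ((K:ℝ) + 1)⁻¹ ≤ (QF W).1 + (QF W).2.1 * x₀ + (QF W).2.2 * x₀ ^ 2 := by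
      rw [inv_le_comm₀ (by positivity) h4]; linarith
    exact h5.trans h3'⟩ q
  refine ⟨U, hU, ?_⟩
  rintro ⟨t, ht, hae⟩
  apply hno
  refine ⟨t, ht, ?_⟩
  -- null sets
  rw [ae_restrict_iff' measurableSet_Ioo] at hae
  have hN := ae_iff.1 hae
  have hNx := null_slopes' W.1 W.2 hdW hN
  rw [ae_restrict_iff' measurableSet_Icc]
  have hNx' : ∀ᵐ x : ℝ, ¬ (∃ θ ∈ {θ : ℝ | ¬ (θ ∈ Ioo α β → ∀ᶠ n in atTop,
          t n • g.symm (Real.cos θ, Real.sin θ) ∈ Hit A p U)}, ∃ r : ℝ, 0 < r ∧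
        (Real.cos θ, Real.sin θ) = r • (W.1 + x • W.2)) := by
    rw [ae_iff]
    simpa only [not_not] using hNx
  filter_upwards [hNx'] with x hx hxI
  obtain ⟨θ, hθ, r, hr, her⟩ := hcone x hxI
  have her' : (Real.cos θ, Real.sin θ) = r • (W.1 + x • W.2) := by
    rw [her, ← hW1, ← hW2]
  have hhit : ∀ᶠ n in atTop, t n • g.symm (Real.cos θ, Real.sin θ) ∈ Hit A p U := by
    by_contra hno'
    exact hx ⟨θ, fun h => hno' (h hθ), r, hr, her'⟩
  -- the radius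
  have hrad : r = 1 / √((QF W).1 + (QF W).2.1 * x + (QF W).2.2 * x ^ 2) := by
    have c1 : Real.cos θ = r * (W.1.1 + x * W.2.1) := congrArg Prod.fst her'
    have c2 : Real.sin θ = r * (W.1.2 + x * W.2.2) := congrArg Prod.snd her'
    have c3 := Real.cos_sq_add_sin_sq θ
    have c4 : r ^ 2 * ((QF W).1 + (QF W).2.1 * x + (QF W).2.2 * x ^ 2) = 1 := by
      rw [QF_eval, ← c3, c1, c2]; ring
    have c5 : r * √((QF W).1 + (QF W).2.1 * x + (QF W).2.2 * x ^ 2) = 1 := by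
      have c6 : (r * √((QF W).1 + (QF W).2.1 * x + (QF W).2.2 * x ^ 2)) ^ 2 = 1 := by
        rw [mul_pow, Real.sq_sqrt (hQpos x).le, c4]
      have c7 : 0 ≤ r * √((QF W).1 + (QF W).2.1 * x + (QF W).2.2 * x ^ 2) := by positivity
      nlinarith
    have c8 : 0 < √((QF W).1 + (QF W).2.1 * x + (QF W).2.2 * x ^ 2) := Real.sqrt_pos.2 (hQpos x)
    rw [eq_div_iff c8.ne', c5]
  refine hhit.mono fun n hn => ?_
  have e1 : g.symm (Real.cos θ, Real.sin θ) = r • ((R w).1 + x • (R w).2) := by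
    rw [her', map_smul, map_add, map_smul, ← hW1, ← hW2]; simp
  rw [e1, smul_smul] at hn
  rw [hrad, mul_one_div] at hn
  exact hn

/-- No concentration at a point, in measure. -/
theorem main_strong [T2Space M] [SecondCountableTopology M] (an : AnStmt) (A : TransAtlas M)
    (p : M) :
    ∀ᵐ z : (ℝ × ℝ) × (ℝ × ℝ), ∀ g : (ℝ × ℝ) ≃L[ℝ] (ℝ × ℝ), g (1, 0) = z.1 → g (0, 1) = z.2 →
      ∀ (q : M) (α β : ℝ), α < β → ∃ U ∈ 𝓝 q, ∃ η > 0, ∃ T : ℝ, ∀ t ≥ T,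
        volume {θ : ℝ | θ ∈ Ioo α β ∧ ∃ c : ℝ → M, c 0 = p ∧
          Straight (A.deform g) (Real.cos θ, Real.sin θ) (Icc 0 t) c ∧ c t ∈ U}
            ≤ ENNReal.ofReal (β - α - η) := by
  filter_upwards [core an A p] with z hz g h1 h2 q α β hαβ
  obtain ⟨U', hU', hno⟩ := hz g h1 h2 q α β hαβ
  obtain ⟨U, hUU', hUo, hqU⟩ := mem_nhds_iff.1 hU'
  refine ⟨U, hUo.mem_nhds hqU, ?_⟩
  by_contra hcon
  push Not at hcon
  -- a sequence of times
  have hch : ∀ n : ℕ, ∃ t ≥ ((n : ℝ) + 1), ENNReal.ofReal (β - α - (1 / 2) ^ n) <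
      volume {θ : ℝ | θ ∈ Ioo α β ∧ ∃ c : ℝ → M, c 0 = p ∧
          Straight (A.deform g) (Real.cos θ, Real.sin θ) (Icc 0 t) c ∧ c t ∈ U} :=
    fun n => hcon _ (by positivity) _
  choose t ht hvol using hch
  have htpos : ∀ n, 0 < t n := fun n => by
    have := ht n
    have h3 : (0:ℝ) ≤ n := Nat.cast_nonneg n
    linarith
  have htt : Tendsto t atTop atTop := by
    refine tendsto_atTop_mono (f := fun n : ℕ => (n : ℝ)) ?_ tendsto_natCast_atTop_atTop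
    intro n; have := ht n; linarith
  set G : ℕ → Set ℝ := fun n => {θ : ℝ | t n • g.symm (Real.cos θ, Real.sin θ) ∈ Hit A p U} with hG
  have hGo : ∀ n, IsOpen (G n) := by
    intro n
    have hc : Continuous (fun θ : ℝ => t n • g.symm (Real.cos θ, Real.sin θ)) := by fun_prop
    exact (hit_open hUo).preimage hc
  have hsub : ∀ n, {θ : ℝ | θ ∈ Ioo α β ∧ ∃ c : ℝ → M, c 0 = p ∧
          Straight (A.deform g) (Real.cos θ, Real.sin θ) (Icc 0 (t n)) c ∧ c (t n) ∈ U}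
        ⊆ Ioo α β ∩ G n := by
    rintro n θ ⟨hθ, c, hc0, hc, hcU⟩
    refine ⟨hθ, fun s => c (t n * s), by simpa using hc0, ?_, by simpa using hcU⟩
    refine straight_scale (straight_deform hc) ?_
    intro s hs
    exact ⟨mul_nonneg (htpos n).le hs.1, by nlinarith [htpos n, hs.2]⟩
  have hcompl : ∀ n, volume (Ioo α β \ G n) ≤ ENNReal.ofReal ((1 / 2) ^ n) := by
    intro n
    have h3 : volume (Ioo α β ∩ G n) + volume (Ioo α β \ G n) = volume (Ioo α β) :=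
      measure_inter_add_sdiff _ (hGo n).measurableSet
    have h4 : ENNReal.ofReal (β - α - (1 / 2) ^ n) ≤ volume (Ioo α β ∩ G n) :=
      (hvol n).le.trans (measure_mono (hsub n))
    have h5 : volume (Ioo α β) = ENNReal.ofReal (β - α) := Real.volume_Ioo
    have hfin : volume (Ioo α β ∩ G n) ≠ ⊤ := by
      refine ne_top_of_le_ne_top ?_ (measure_mono inter_subset_left)
      rw [h5]; exact ENNReal.ofReal_ne_top
    have h6 : volume (Ioo α β \ G n) = volume (Ioo α β) - volume (Ioo α β ∩ G n) := by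
      rw [← h3, ENNReal.add_sub_cancel_left hfin]
    rw [h6, h5]
    refine (tsub_le_tsub_left h4 _).trans ?_
    rw [tsub_le_iff_right]
    have h7 : ENNReal.ofReal (β - α) = ENNReal.ofReal ((1 / 2) ^ n + (β - α - (1 / 2) ^ n)) := by
      congr 1; ring
    rw [h7]
    exact ENNReal.ofReal_add_le
  have hsum : (∑' n, volume (Ioo α β \ G n)) ≠ ⊤ := by
    have h3 : (∑' n : ℕ, ENNReal.ofReal ((1 / 2 : ℝ) ^ n)) ≠ ⊤ := by
      rw [← ENNReal.ofReal_tsum_of_nonneg (fun n => by positivity) summable_geometric_two]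
      exact ENNReal.ofReal_ne_top
    exact ne_top_of_le_ne_top h3 (ENNReal.tsum_le_tsum hcompl)
  have hae := ae_eventually_notMem hsum
  apply hno
  refine ⟨t, htt, ?_⟩
  rw [ae_restrict_iff' measurableSet_Ioo]
  filter_upwards [hae] with θ hθ hθI
  refine hθ.mono fun n hn => ?_
  have h3 : θ ∈ G n := by
    by_contra h4
    exact hn ⟨hθI, h4⟩
  obtain ⟨c, hc0, hc1, hc2⟩ := h3
  exact ⟨c, hc0, hc1, hUU' hc2⟩

/-- **Main theorem** (from the analytic half). -/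
theorem main [T2Space M] [SecondCountableTopology M] (an : AnStmt) (A : TransAtlas M) (p : M) :
    ∀ᵐ z : (ℝ × ℝ) × (ℝ × ℝ), ∀ g : (ℝ × ℝ) ≃L[ℝ] (ℝ × ℝ), g (1, 0) = z.1 → g (0, 1) = z.2 →
      ∀ (q : M) (α β : ℝ), α < β → ¬ Concentrates (A.deform g) p q (Ioo α β) := by
  filter_upwards [core an A p] with z hz g h1 h2 q α β hαβ hcon
  obtain ⟨t, ht, hae⟩ := hcon
  obtain ⟨U, hU, hno⟩ := hz g h1 h2 q α β hαβ
  exact hno ⟨t, ht, hae.mono fun θ hθ => hit_of_conc ht hU hθ⟩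

theorem main_commonReturn [T2Space M] [SecondCountableTopology M] (an : AnStmt) (A : TransAtlas M)
    (p : M) :
    ∀ᵐ z : (ℝ × ℝ) × (ℝ × ℝ), ∀ g : (ℝ × ℝ) ≃L[ℝ] (ℝ × ℝ), g (1, 0) = z.1 → g (0, 1) = z.2 →
      ¬ CommonReturn (A.deform g) p := by
  filter_upwards [main an A p] with z hz g h1 h2 hcon
  obtain ⟨t, ht, hae⟩ := hcon
  refine hz g h1 h2 p 0 (2 * Real.pi) (by positivity) ⟨t, ht, ?_⟩
  exact ae_restrict_of_ae_restrict_of_subset Ioo_subset_Ico_self hae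

end Pool.Agent.CRP.H90
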