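import Pool.Agent.Helper90_CRP.Main

namespace Pool.Agent.CRP.H90

open MeasureTheory Filter Topology Set Pool.Agent.CRP

/-- the linear map with columns `z.1`, `z.2` -/
noncomputable def colMap (z : (ℝ × ℝ) × (ℝ × ℝ)) : (ℝ × ℝ) →L[ℝ] (ℝ × ℝ) :=
  (ContinuousLinearMap.fst ℝ ℝ ℝ).smulRight z.1 + (ContinuousLinearMap.snd ℝ ℝ ℝ).smulRight z.2

theorem exists_equiv (z : (ℝ × ℝ) × (ℝ × ℝ)) (hz : z.1.1 * z.2.2 - z.1.2 * z.2.1 ≠ 0) :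
    ∃ g : (ℝ × ℝ) ≃L[ℝ] (ℝ × ℝ), g (1, 0) = z.1 ∧ g (0, 1) = z.2 := by
  set D := z.1.1 * z.2.2 - z.1.2 * z.2.1 with hD
  have h1 : D⁻¹ * D = 1 := inv_mul_cancel₀ hz
  refine ⟨ContinuousLinearEquiv.equivOfInverse (colMap z)
    (colMap ((D⁻¹ * z.2.2, -(D⁻¹ * z.1.2)), (-(D⁻¹ * z.2.1), D⁻¹ * z.1.1))) ?_ ?_, ?_, ?_⟩
  · intro y
    ext
    · simp [colMap]
      linear_combination (y.1) * h1
    · simp [colMap]
      linear_combination (y.2) * h1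
  · intro y
    ext
    · simp [colMap]
      linear_combination (y.1) * h1
    · simp [colMap]
      linear_combination (y.2) * h1
  · simp [colMap]
  · simp [colMap]

/-- Families of pointed surfaces with a measure quasi-invariant under the action of `GL₂(ℝ)`. -/
theorem family (an : AnStmt) {W : Type*} [MeasurableSpace W] (ν : Measure W) [SFinite ν]
    (a : ((ℝ × ℝ) × (ℝ × ℝ)) × W → W) (ha : Measurable a)
    (hinv : ∀ (g : (ℝ × ℝ) ≃L[ℝ] (ℝ × ℝ)) (w : W),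
      a ((g (1, 0), g (0, 1)), a ((g.symm (1, 0), g.symm (0, 1)), w)) = w)
    (hq : ∀ (g : (ℝ × ℝ) ≃L[ℝ] (ℝ × ℝ)) (S : Set W), MeasurableSet S → ν S = 0 →
      ν {w | a ((g (1, 0), g (0, 1)), w) ∈ S} = 0)
    (M : W → Type*) [∀ w, TopologicalSpace (M w)] [∀ w, T2Space (M w)]
    [∀ w, SecondCountableTopology (M w)] (A : ∀ w, TransAtlas (M w)) (p : ∀ w, M w)
    (heq : ∀ (g : (ℝ × ℝ) ≃L[ℝ] (ℝ × ℝ)) (w : W),
      CommonReturn (A (a ((g (1, 0), g (0, 1)), w))) (p (a ((g (1, 0), g (0, 1)), w))) ↔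
        CommonReturn ((A w).deform g) (p w))
    (hS : MeasurableSet {w | CommonReturn (A w) (p w)}) :
    ν {w | CommonReturn (A w) (p w)} = 0 := by
  set S := {w | CommonReturn (A w) (p w)} with hSdef
  have hdetm : MeasurableSet {z : (ℝ × ℝ) × (ℝ × ℝ) | z.1.1 * z.2.2 - z.1.2 * z.2.1 ≠ 0} :=
    (isOpen_ne_fun (by fun_prop) continuous_const).measurableSet
  have hTm : MeasurableSet {x : W × ((ℝ × ℝ) × (ℝ × ℝ)) |
      ¬ (x.2.1.1 * x.2.2.2 - x.2.1.2 * x.2.2.1 ≠ 0 ∧ a (x.2, x.1) ∈ S)} := by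
    refine MeasurableSet.compl ?_
    refine MeasurableSet.inter ?_ ?_
    · exact measurable_snd hdetm
    · exact (ha.comp measurable_swap) hS
  have h1 : ∀ᵐ w ∂ν, ∀ᵐ z : (ℝ × ℝ) × (ℝ × ℝ),
      ¬ (z.1.1 * z.2.2 - z.1.2 * z.2.1 ≠ 0 ∧ a (z, w) ∈ S) := by
    refine Eventually.of_forall fun w => ?_
    filter_upwards [main_commonReturn an (A w) (p w)] with z hz hcon
    obtain ⟨hdet, hmem⟩ := hcon
    obtain ⟨g, hg1, hg2⟩ := exists_equiv z hdet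
    refine hz g hg1 hg2 ((heq g w).1 ?_)
    rw [hg1, hg2]; exact hmem
  have h2 : ∀ᵐ z : (ℝ × ℝ) × (ℝ × ℝ), ∀ᵐ w ∂ν,
      ¬ (z.1.1 * z.2.2 - z.1.2 * z.2.1 ≠ 0 ∧ a (z, w) ∈ S) :=
    (Measure.ae_ae_comm (p := fun w z => ¬ (z.1.1 * z.2.2 - z.1.2 * z.2.1 ≠ 0 ∧ a (z, w) ∈ S))
      hTm).1 h1
  -- a good invertible matrix
  obtain ⟨z, hz1, hz2⟩ : ∃ z : (ℝ × ℝ) × (ℝ × ℝ), z.1.1 * z.2.2 - z.1.2 * z.2.1 ≠ 0 ∧
      ∀ᵐ w ∂ν, ¬ (z.1.1 * z.2.2 - z.1.2 * z.2.1 ≠ 0 ∧ a (z, w) ∈ S) := by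
    by_contra hcon
    push Not at hcon
    have h3 : volume {z : (ℝ × ℝ) × (ℝ × ℝ) | z.1.1 * z.2.2 - z.1.2 * z.2.1 ≠ 0} = 0 := by
      refine measure_mono_null ?_ (ae_iff.1 h2)
      intro z hz
      exact fun h => hcon z hz h
    have h4 : IsOpen {z : (ℝ × ℝ) × (ℝ × ℝ) | z.1.1 * z.2.2 - z.1.2 * z.2.1 ≠ 0} :=
      isOpen_ne_fun (by fun_prop) continuous_const
    have h5 := h4.measure_eq_zero_iff volume |>.1 h3
    have h6 : ((((1:ℝ), (0:ℝ)), ((0:ℝ), (1:ℝ))) : (ℝ × ℝ) × (ℝ × ℝ)) ∈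
        {z : (ℝ × ℝ) × (ℝ × ℝ) | z.1.1 * z.2.2 - z.1.2 * z.2.1 ≠ 0} := by
      show (1:ℝ) * 1 - 0 * 0 ≠ 0
      norm_num
    rw [h5] at h6
    exact h6
  obtain ⟨g, hg1, hg2⟩ := exists_equiv z hz1
  have h3 : ν {w | a ((g (1, 0), g (0, 1)), w) ∈ S} = 0 := by
    rw [hg1, hg2]
    refine measure_mono_null ?_ (ae_iff.1 hz2)
    intro w hw h
    exact h ⟨hz1, hw⟩
  have hm : MeasurableSet {w | a ((g (1, 0), g (0, 1)), w) ∈ S} :=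
    (ha.comp (measurable_const.prodMk measurable_id)) hS
  have h4 := hq g.symm _ hm h3
  refine measure_mono_null ?_ h4
  intro w hw
  show a ((g (1, 0), g (0, 1)), a ((g.symm (1, 0), g.symm (0, 1)), w)) ∈ S
  rw [hinv g w]
  exact hw

end Pool.Agent.CRP.H90
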