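import Pool.Agent.Helper90_CRP.Joint
import Pool.Agent.Helper90_CRP.Family

namespace Pool.Agent.CRP.H90

open MeasureTheory Filter Topology Set Pool.Agent.CRP

/-- the determinant of the matrix with columns `z.1`, `z.2` -/
def dt (z : (ℝ × ℝ) × (ℝ × ℝ)) : ℝ := z.1.1 * z.2.2 - z.1.2 * z.2.1

/-- the inverse of the matrix with columns `z.1`, `z.2` -/
noncomputable def inv2 (z : (ℝ × ℝ) × (ℝ × ℝ)) (y : ℝ × ℝ) : ℝ × ℝ :=
  ((z.2.2 * y.1 - z.2.1 * y.2) / dt z, (z.1.1 * y.2 - z.1.2 * y.1) / dt z)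

theorem continuous_dt : Continuous dt := by unfold dt; fun_prop

theorem apply_eq {g : (ℝ × ℝ) ≃L[ℝ] (ℝ × ℝ)} {z : (ℝ × ℝ) × (ℝ × ℝ)} (h1 : g (1, 0) = z.1)
    (h2 : g (0, 1) = z.2) (y : ℝ × ℝ) : g y = y.1 • z.1 + y.2 • z.2 := by
  have : y = y.1 • ((1:ℝ), (0:ℝ)) + y.2 • ((0:ℝ), (1:ℝ)) := by
    ext <;> simp
  conv_lhs => rw [this]
  rw [map_add, map_smul, map_smul, h1, h2]

theorem symm_eq {g : (ℝ × ℝ) ≃L[ℝ] (ℝ × ℝ)} {z : (ℝ × ℝ) × (ℝ × ℝ)} (h1 : g (1, 0) = z.1)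
    (h2 : g (0, 1) = z.2) (hD : dt z ≠ 0) (y : ℝ × ℝ) : g.symm y = inv2 z y := by
  rw [ContinuousLinearEquiv.symm_apply_eq, apply_eq h1 h2]
  have h3 : dt z = z.1.1 * z.2.2 - z.1.2 * z.2.1 := rfl
  ext
  · show y.1 = (z.2.2 * y.1 - z.2.1 * y.2) / dt z * z.1.1 + (z.1.1 * y.2 - z.1.2 * y.1) / dt z * z.2.1
    field_simp
    rw [h3]; ring
  · show y.2 = (z.2.2 * y.1 - z.2.1 * y.2) / dt z * z.1.2 + (z.1.1 * y.2 - z.1.2 * y.1) / dt z * z.2.2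
    field_simp
    rw [h3]; ring

theorem dt_ne_zero {g : (ℝ × ℝ) ≃L[ℝ] (ℝ × ℝ)} {z : (ℝ × ℝ) × (ℝ × ℝ)} (h1 : g (1, 0) = z.1)
    (h2 : g (0, 1) = z.2) : dt z ≠ 0 := by
  intro h0
  have h0' : z.1.1 * z.2.2 - z.1.2 * z.2.1 = 0 := h0
  have h3 : g (z.2.2, -z.1.2) = 0 ∧ g (z.2.1, -z.1.1) = 0 := by
    constructor
    · rw [apply_eq h1 h2]; ext
      · show z.2.2 * z.1.1 + (-z.1.2) * z.2.1 = 0; linarith
      · show z.2.2 * z.1.2 + (-z.1.2) * z.2.2 = 0; ring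
    · rw [apply_eq h1 h2]; ext
      · show z.2.1 * z.1.1 + (-z.1.1) * z.2.1 = 0; ring
      · show z.2.1 * z.1.2 + (-z.1.1) * z.2.2 = 0; linarith
  have h4 : ((z.2.2, -z.1.2) : ℝ × ℝ) = 0 := g.injective (by rw [h3.1, map_zero])
  have h5 : ((z.2.1, -z.1.1) : ℝ × ℝ) = 0 := g.injective (by rw [h3.2, map_zero])
  have h6 : z.1.2 = 0 := by have := congrArg Prod.snd h4; simpa using this
  have h7 : z.1.1 = 0 := by have := congrArg Prod.snd h5; simpa using this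
  have h8 : g (1, 0) = 0 := by rw [h1]; exact Prod.ext h7 h6
  have h9 : ((1, 0) : ℝ × ℝ) = 0 := g.injective (by rw [h8, map_zero])
  have := congrArg Prod.fst h9
  norm_num at this

theorem straight_deform_rev {M : Type*} [TopologicalSpace M] {A : TransAtlas M}
    {g : (ℝ × ℝ) ≃L[ℝ] (ℝ × ℝ)} {w : ℝ × ℝ}
    {I : Set ℝ} {c : ℝ → M} (h : Straight A (g.symm w) I c) : Straight (A.deform g) w I c := by
  rintro s hs _ ⟨φ, hφ, rfl⟩ hsφ
  have h1 := h s hs φ hφ hsφ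
  filter_upwards [h1] with s' hs'
  refine ⟨hs'.1, ?_⟩
  show g (φ (c s')) = g (φ (c s)) + (s' - s) • w
  rw [hs'.2, map_add, map_smul, g.apply_symm_apply]

variable {M : Type*} [TopologicalSpace M]

/-- the open set of all `(t, (z, p), θ)` such that `t g_z⁻¹ (cos θ, sin θ)` is a hit -/
def OO (A : TransAtlas M) (U : Set M) : Set ((ℝ × ((ℝ × ℝ) × (ℝ × ℝ)) × M) × ℝ) :=
  {x | dt x.1.2.1 ≠ 0 ∧ x.2 ∈ Ioo (0:ℝ) 1 ∧
    x.1.1 • inv2 x.1.2.1 (Real.cos x.2, Real.sin x.2) ∈ Hit A x.1.2.2 U}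

theorem isOpen_OO {A : TransAtlas M} {U : Set M} (hU : IsOpen U) : IsOpen (OO A U) := by
  have h1 : IsOpen {x : (ℝ × ((ℝ × ℝ) × (ℝ × ℝ)) × M) × ℝ | dt x.1.2.1 ≠ 0} :=
    isOpen_ne_fun (continuous_dt.comp (by fun_prop)) continuous_const
  have h2 : IsOpen {x : (ℝ × ((ℝ × ℝ) × (ℝ × ℝ)) × M) × ℝ | x.2 ∈ Ioo (0:ℝ) 1} :=
    isOpen_Ioo.preimage continuous_snd
  have hD : Continuous (fun x : (ℝ × ((ℝ × ℝ) × (ℝ × ℝ)) × M) × ℝ => dt x.1.2.1) :=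
    continuous_dt.comp (by fun_prop)
  have h3 : ContinuousOn (fun x : (ℝ × ((ℝ × ℝ) × (ℝ × ℝ)) × M) × ℝ =>
      ((x.1.2.2, x.1.1 • inv2 x.1.2.1 (Real.cos x.2, Real.sin x.2)) : M × (ℝ × ℝ)))
      {x | dt x.1.2.1 ≠ 0} := by
    have c0 : Continuous (fun x : (ℝ × ((ℝ × ℝ) × (ℝ × ℝ)) × M) × ℝ => x.1.2.2) := by fun_prop
    have c1 : Continuous (fun x : (ℝ × ((ℝ × ℝ) × (ℝ × ℝ)) × M) × ℝ => x.1.1) := by fun_prop
    have c2 : Continuous (fun x : (ℝ × ((ℝ × ℝ) × (ℝ × ℝ)) × M) × ℝ =>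
        x.1.2.1.2.2 * Real.cos x.2 - x.1.2.1.2.1 * Real.sin x.2) := by fun_prop
    have c3 : Continuous (fun x : (ℝ × ((ℝ × ℝ) × (ℝ × ℝ)) × M) × ℝ =>
        x.1.2.1.1.1 * Real.sin x.2 - x.1.2.1.1.2 * Real.cos x.2) := by fun_prop
    refine c0.continuousOn.prodMk (c1.continuousOn.smul ?_)
    unfold inv2
    exact (c2.continuousOn.div hD.continuousOn (fun x hx => hx)).prodMk
      (c3.continuousOn.div hD.continuousOn (fun x hx => hx))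
  have h4 := h3.isOpen_inter_preimage h1 (hit_open_joint (A := A) hU)
  have h5 := h2.inter h4
  have h6 : OO A U = {x : (ℝ × ((ℝ × ℝ) × (ℝ × ℝ)) × M) × ℝ | x.2 ∈ Ioo (0:ℝ) 1} ∩
      ({x : (ℝ × ((ℝ × ℝ) × (ℝ × ℝ)) × M) × ℝ | dt x.1.2.1 ≠ 0} ∩
        (fun x : (ℝ × ((ℝ × ℝ) × (ℝ × ℝ)) × M) × ℝ =>
          ((x.1.2.2, x.1.1 • inv2 x.1.2.1 (Real.cos x.2, Real.sin x.2)) : M × (ℝ × ℝ))) ⁻¹'
            {z : M × (ℝ × ℝ) | z.2 ∈ Hit A z.1 U}) := by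
    ext x
    simp only [OO, mem_ofPred_eq, mem_inter_iff, mem_preimage]
    tauto
  rw [h6]
  exact h5

/-- the set of `(z, p)` such that the circles around `p` concentrate in `U` -/
def Bad (A : TransAtlas M) (U : Set M) : Set (((ℝ × ℝ) × (ℝ × ℝ)) × M) :=
  {y | ∀ k N : ℕ, ∃ t : ℝ, (N:ℝ) < t ∧
    ENNReal.ofReal (1 - (1 / 2) ^ k) < volume {θ : ℝ | ((t, y), θ) ∈ OO A U}}

theorem measurable_Bad [MeasurableSpace M] [BorelSpace M] [SecondCountableTopology M]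
    {A : TransAtlas M} {U : Set M} (hU : IsOpen U) : MeasurableSet (Bad A U) := by
  have h1 : Bad A U = ⋂ k : ℕ, ⋂ N : ℕ, {y | ∃ t : ℝ, (N:ℝ) < t ∧
    ENNReal.ofReal (1 - (1 / 2) ^ k) < volume {θ : ℝ | ((t, y), θ) ∈ OO A U}} := by
    ext y; simp only [Bad, mem_ofPred_eq, mem_iInter]
  rw [h1]
  refine MeasurableSet.iInter fun k => MeasurableSet.iInter fun N => ?_
  refine IsOpen.measurableSet ?_
  have h2 : IsOpen {x : ℝ × (((ℝ × ℝ) × (ℝ × ℝ)) × M) | (N:ℝ) < x.1 ∧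
      ENNReal.ofReal (1 - (1 / 2) ^ k) < volume {θ : ℝ | (x, θ) ∈ OO A U}} :=
    (isOpen_lt continuous_const continuous_fst).inter (isOpen_section (isOpen_OO hU) _)
  have h3 := isOpenMap_snd _ h2
  have h4 : {y | ∃ t : ℝ, (N:ℝ) < t ∧
      ENNReal.ofReal (1 - (1 / 2) ^ k) < volume {θ : ℝ | ((t, y), θ) ∈ OO A U}} =
      Prod.snd '' {x : ℝ × (((ℝ × ℝ) × (ℝ × ℝ)) × M) | (N:ℝ) < x.1 ∧
      ENNReal.ofReal (1 - (1 / 2) ^ k) < volume {θ : ℝ | (x, θ) ∈ OO A U}} := by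
    ext y
    constructor
    · rintro ⟨t, ht1, ht2⟩
      exact ⟨(t, y), ⟨ht1, ht2⟩, rfl⟩
    · rintro ⟨⟨t, y'⟩, ⟨ht1, ht2⟩, rfl⟩
      exact ⟨t, ht1, ht2⟩
  rw [h4]
  exact h3

theorem bad_of_commonReturn {A : TransAtlas M} {z : (ℝ × ℝ) × (ℝ × ℝ)}
    {g : (ℝ × ℝ) ≃L[ℝ] (ℝ × ℝ)} (h1 : g (1, 0) = z.1) (h2 : g (0, 1) = z.2) {p : M}
    (h : CommonReturn (A.deform g) p) {U : Set M} (hU : IsOpen U) (hp : p ∈ U) :
    (z, p) ∈ Bad A U := by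
  have hD := dt_ne_zero h1 h2
  obtain ⟨t, ht, hae⟩ := h
  have hsub : Ioo (0:ℝ) 1 ⊆ Ico 0 (2 * Real.pi) := by
    intro x hx
    refine ⟨hx.1.le, hx.2.trans ?_⟩
    have := Real.pi_gt_three
    linarith
  have hae2 := ae_restrict_of_ae_restrict_of_subset hsub hae
  have hae3 : ∀ᵐ θ : ℝ ∂(volume.restrict (Ioo 0 1)), ∀ᶠ n in atTop,
      ((t n, (z, p)), θ) ∈ OO A U := by
    rw [ae_restrict_iff' measurableSet_Ioo] at hae2 ⊢
    filter_upwards [hae2] with θ hθ hθI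
    refine (hit_of_conc ht (hU.mem_nhds hp) (hθ hθI)).mono fun n hn => ?_
    refine ⟨hD, hθI, ?_⟩
    show t n • inv2 z (Real.cos θ, Real.sin θ) ∈ Hit A p U
    rw [← symm_eq h1 h2 hD]
    exact hn
  intro k N
  set I : ℕ → Set ℝ := fun m => {θ | ∀ n ≥ m, ((t n, (z, p)), θ) ∈ OO A U} with hI
  have hmono : Monotone I := fun a b hab θ hθ n hn => hθ n (hab.trans hn)
  have hunion : ENNReal.ofReal 1 ≤ volume (⋃ m, I m) := by
    have h3 : volume (Ioo (0:ℝ) 1) = ENNReal.ofReal 1 := by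
      rw [Real.volume_Ioo]; norm_num
    rw [← h3]
    have h4 : volume (Ioo (0:ℝ) 1 \ ⋃ m, I m) = 0 := by
      rw [ae_restrict_iff' measurableSet_Ioo] at hae3
      refine measure_mono_null ?_ (ae_iff.1 hae3)
      rintro θ ⟨hθ, hθ2⟩
      intro h5
      apply hθ2
      obtain ⟨m, hm⟩ := eventually_atTop.1 (h5 hθ)
      exact mem_iUnion.2 ⟨m, hm⟩
    calc volume (Ioo (0:ℝ) 1) ≤ volume ((⋃ m, I m) ∪ (Ioo (0:ℝ) 1 \ ⋃ m, I m)) := by
          refine measure_mono ?_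
          intro θ hθ
          by_cases h5 : θ ∈ ⋃ m, I m
          · exact Or.inl h5
          · exact Or.inr ⟨hθ, h5⟩
      _ ≤ volume (⋃ m, I m) + volume (Ioo (0:ℝ) 1 \ ⋃ m, I m) := measure_union_le _ _
      _ = volume (⋃ m, I m) := by rw [h4, add_zero]
  rw [hmono.measure_iUnion] at hunion
  have hlt : ENNReal.ofReal (1 - (1 / 2) ^ k) < ENNReal.ofReal 1 := by
    rw [ENNReal.ofReal_lt_ofReal_iff (by norm_num)]
    have : (0:ℝ) < (1 / 2) ^ k := by positivity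
    linarith
  obtain ⟨m, hm⟩ := lt_iSup_iff.1 (hlt.trans_le hunion)
  obtain ⟨n, hn1, hn2⟩ := ((eventually_ge_atTop m).and (ht.eventually_gt_atTop (N:ℝ))).exists
  refine ⟨t n, hn2, hm.trans_le (measure_mono ?_)⟩
  intro θ hθ
  exact hθ n hn1

theorem good_ae [T2Space M] [SecondCountableTopology M] (an : AnStmt) (A : TransAtlas M) (p : M) :
    ∀ᵐ z : (ℝ × ℝ) × (ℝ × ℝ), dt z ≠ 0 →
      ∃ U ∈ TopologicalSpace.countableBasis M, p ∈ U ∧ (z, p) ∉ Bad A U := by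
  filter_upwards [main_strong an A p] with z hz hD
  obtain ⟨g, hg1, hg2⟩ := exists_equiv z hD
  obtain ⟨U, hU, η, hη, T, hT⟩ := hz g hg1 hg2 p 0 1 (by norm_num)
  obtain ⟨V, hV, hpV, hVU⟩ := (TopologicalSpace.isBasis_countableBasis M).mem_nhds_iff.1 hU
  refine ⟨V, hV, hpV, ?_⟩
  intro hbad
  obtain ⟨k, hk⟩ := exists_pow_lt_of_lt_one hη (by norm_num : (1 / 2 : ℝ) < 1)
  obtain ⟨N, hN⟩ := exists_nat_ge (max T 0)
  obtain ⟨t, ht1, ht2⟩ := hbad k N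
  have ht3 : T ≤ t := (le_max_left _ _).trans (hN.trans ht1.le)
  have ht0 : 0 < t := lt_of_le_of_lt ((le_max_right _ _).trans hN) ht1
  have h1 := hT t ht3
  refine absurd ht2 (not_lt.2 ?_)
  refine (measure_mono ?_).trans (h1.trans (ENNReal.ofReal_le_ofReal (by linarith)))
  rintro θ ⟨_, hθI, c, hc0, hc, hc1⟩
  refine ⟨hθI, fun s => c (t⁻¹ * s), by simpa using hc0, ?_, ?_⟩
  · apply straight_deform_rev
    have h2 : t • inv2 z (Real.cos θ, Real.sin θ) = t • g.symm (Real.cos θ, Real.sin θ) := by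
      rw [symm_eq hg1 hg2 hD]
    have hc' : Straight A (t • inv2 z (Real.cos θ, Real.sin θ)) (Icc 0 1) c := hc
    rw [h2] at hc'
    have := straight_scale (lam := t⁻¹) (J := Icc 0 t) hc' (by
      intro s hs
      refine ⟨mul_nonneg (inv_nonneg.2 ht0.le) hs.1, ?_⟩
      rw [inv_mul_le_iff₀ ht0]; linarith [hs.2])
    rwa [smul_smul, inv_mul_cancel₀ ht0.ne', one_smul] at this
  · show c (t⁻¹ * t) ∈ U
    rw [inv_mul_cancel₀ ht0.ne']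
    exact hVU hc1

/-- Almost every deformation, almost every point. -/
theorem main_ae_point [T2Space M] [SecondCountableTopology M] [MeasurableSpace M] [BorelSpace M]
    (an : AnStmt) (A : TransAtlas M) (ν : Measure M) [SFinite ν] :
    ∀ᵐ z : (ℝ × ℝ) × (ℝ × ℝ), ∀ g : (ℝ × ℝ) ≃L[ℝ] (ℝ × ℝ), g (1, 0) = z.1 → g (0, 1) = z.2 →
      ∀ᵐ p ∂ν, ¬ CommonReturn (A.deform g) p := by
  set G : Set (((ℝ × ℝ) × (ℝ × ℝ)) × M) := {y | dt y.1 ≠ 0 →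
      ∃ U ∈ TopologicalSpace.countableBasis M, y.2 ∈ U ∧ y ∉ Bad A U} with hG
  have hGm : MeasurableSet G := by
    have h1 : G = {y | dt y.1 = 0} ∪
        ⋃ U ∈ TopologicalSpace.countableBasis M, ({y | y.2 ∈ U} ∩ (Bad A U)ᶜ) := by
      ext y
      simp only [hG, mem_ofPred_eq, mem_union, mem_iUnion, mem_inter_iff, mem_compl_iff, exists_prop]
      tauto
    rw [h1]
    refine MeasurableSet.union ?_ ?_
    · exact (isClosed_eq (continuous_dt.comp continuous_fst) continuous_const).measurableSet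
    · refine MeasurableSet.biUnion (TopologicalSpace.countable_countableBasis M) fun U hU => ?_
      have hUo := TopologicalSpace.isOpen_of_mem_countableBasis hU
      exact ((hUo.preimage continuous_snd).measurableSet).inter (measurable_Bad hUo).compl
  have h1 : ∀ᵐ p ∂ν, ∀ᵐ z : (ℝ × ℝ) × (ℝ × ℝ), (z, p) ∈ G :=
    Eventually.of_forall fun p => good_ae an A p
  have hm : MeasurableSet {x : M × ((ℝ × ℝ) × (ℝ × ℝ)) | (x.2, x.1) ∈ G} :=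
    measurable_swap hGm
  have h2 : ∀ᵐ z : (ℝ × ℝ) × (ℝ × ℝ), ∀ᵐ p ∂ν, (z, p) ∈ G :=
    (Measure.ae_ae_comm (p := fun p z => (z, p) ∈ G) hm).1 h1
  filter_upwards [h2] with z hz g hg1 hg2
  filter_upwards [hz] with p hp hcon
  obtain ⟨U, hU, hpU, hnot⟩ := hp (dt_ne_zero hg1 hg2)
  exact hnot (bad_of_commonReturn hg1 hg2 hcon (TopologicalSpace.isOpen_of_mem_countableBasis hU) hpU)

end Pool.Agent.CRP.H90
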