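import Pool.Agent.Helper90_CRP.AePoint

namespace Pool.Agent.CRP.H90

open MeasureTheory Filter Topology Set Pool.Agent.CRP

variable {M : Type*} [TopologicalSpace M]

/-- a space with a translation atlas is locally compact -/
theorem locallyCompact (A : TransAtlas M) : LocallyCompactSpace M := by
  classical
  choose φ hφ hq using A.cover
  let C : ChartedSpace (ℝ × ℝ) M :=
    { atlas := A.charts
      chartAt := φ
      mem_chart_source := hq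
      chart_mem_atlas := hφ }
  exact ChartedSpace.locallyCompactSpace (ℝ × ℝ) M

/-- the open set of all `(t, (z, p), θ)` such that `t g_z⁻¹ (cos θ, sin θ)` is a hit -/
def OP (A : TransAtlas M) (U : Set M) (α β : ℝ) : Set ((ℝ × ((ℝ × ℝ) × (ℝ × ℝ)) × M) × ℝ) :=
  {x | dt x.1.2.1 ≠ 0 ∧ x.2 ∈ Ioo α β ∧
    x.1.1 • inv2 x.1.2.1 (Real.cos x.2, Real.sin x.2) ∈ Hit A x.1.2.2 U}

theorem isOpen_OP {A : TransAtlas M} {U : Set M} (hU : IsOpen U) (α β : ℝ) :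
    IsOpen (OP A U α β) := by
  have h1 : IsOpen {x : (ℝ × ((ℝ × ℝ) × (ℝ × ℝ)) × M) × ℝ | dt x.1.2.1 ≠ 0} :=
    isOpen_ne_fun (continuous_dt.comp (by fun_prop)) continuous_const
  have h2 : IsOpen {x : (ℝ × ((ℝ × ℝ) × (ℝ × ℝ)) × M) × ℝ | x.2 ∈ Ioo α β} :=
    isOpen_Ioo.preimage continuous_snd
  have hD : Continuous (fun x : (ℝ × ((ℝ × ℝ) × (ℝ × ℝ)) × M) × ℝ => dt x.1.2.1) :=
    continuous_dt.comp (by fun_prop)
  have h3 : ContinuousOn (fun x : (ℝ × ((ℝ × ℝ) × (ℝ × ℝ)) × M) × ℝ =>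
      ((x.1.2.2, x.1.1 • inv2 x.1.2.1 (Real.cos x.2, Real.sin x.2)) : M × (ℝ × ℝ)))
      {x | dt x.1.2.1 ≠ 0} := by
    have c0 : Continuous (fun x : (ℝ × ((ℝ × ℝ) × (ℝ × ℝ)) × M) × ℝ => x.1.2.2) := by fun_prop
    have c1 : Continuous (fun x : (ℝ × ((ℝ × ℝ) × (ℝ × ℝ)) × M) × ℝ => x.1.1) := by fun_prop
    have c2 : Continuous (fun x : (ℝ × ((ℝ × ℝ) × (ℝ × ℝ)) × M) × ℝ =>
        x.1.2.1.2.2 * Real.cos x.2 - x.1.2.1.2.1 * Real.sin x.2) := by fun_prop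
    have c3 : Continuous (fun x : (ℝ × ((ℝ × ℝ) × (ℝ × ℝ)) × M) × ℝ =>
        x.1.2.1.1.1 * Real.sin x.2 - x.1.2.1.1.2 * Real.cos x.2) := by fun_prop
    refine c0.continuousOn.prodMk (c1.continuousOn.smul ?_)
    unfold inv2
    exact (c2.continuousOn.div hD.continuousOn (fun x hx => hx)).prodMk
      (c3.continuousOn.div hD.continuousOn (fun x hx => hx))
  have h4 := h3.isOpen_inter_preimage h1 (hit_open_joint (A := A) hU)
  have h5 := h2.inter h4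
  have h6 : OP A U α β = {x : (ℝ × ((ℝ × ℝ) × (ℝ × ℝ)) × M) × ℝ | x.2 ∈ Ioo α β} ∩
      ({x : (ℝ × ((ℝ × ℝ) × (ℝ × ℝ)) × M) × ℝ | dt x.1.2.1 ≠ 0} ∩
        (fun x : (ℝ × ((ℝ × ℝ) × (ℝ × ℝ)) × M) × ℝ =>
          ((x.1.2.2, x.1.1 • inv2 x.1.2.1 (Real.cos x.2, Real.sin x.2)) : M × (ℝ × ℝ))) ⁻¹'
            {z : M × (ℝ × ℝ) | z.2 ∈ Hit A z.1 U}) := by
    ext x
    simp only [OP, mem_ofPred_eq, mem_inter_iff, mem_preimage]
    tauto
  rw [h6]
  exact h5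

/-- the set of `(z, p)` such that the circles around `p` concentrate in `U` along `(α, β)` -/
def BadP (A : TransAtlas M) (α β : ℝ) (U : Set M) : Set (((ℝ × ℝ) × (ℝ × ℝ)) × M) :=
  {y | ∀ k N : ℕ, ∃ t : ℝ, (N:ℝ) < t ∧
    ENNReal.ofReal (β - α - (1 / 2) ^ k) < volume {θ : ℝ | ((t, y), θ) ∈ OP A U α β}}

theorem measurable_BadP [MeasurableSpace M] [BorelSpace M] [SecondCountableTopology M]
    {A : TransAtlas M} {α β : ℝ} {U : Set M} (hU : IsOpen U) : MeasurableSet (BadP A α β U) := by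
  have h1 : BadP A α β U = ⋂ k : ℕ, ⋂ N : ℕ, {y | ∃ t : ℝ, (N:ℝ) < t ∧
    ENNReal.ofReal (β - α - (1 / 2) ^ k) < volume {θ : ℝ | ((t, y), θ) ∈ OP A U α β}} := by
    ext y; simp only [BadP, mem_ofPred_eq, mem_iInter]
  rw [h1]
  refine MeasurableSet.iInter fun k => MeasurableSet.iInter fun N => ?_
  refine IsOpen.measurableSet ?_
  have h2 : IsOpen {x : ℝ × (((ℝ × ℝ) × (ℝ × ℝ)) × M) | (N:ℝ) < x.1 ∧
      ENNReal.ofReal (β - α - (1 / 2) ^ k) < volume {θ : ℝ | (x, θ) ∈ OP A U α β}} :=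
    (isOpen_lt continuous_const continuous_fst).inter (isOpen_section (isOpen_OP hU α β) _)
  have h3 := isOpenMap_snd _ h2
  have h4 : {y | ∃ t : ℝ, (N:ℝ) < t ∧
      ENNReal.ofReal (β - α - (1 / 2) ^ k) < volume {θ : ℝ | ((t, y), θ) ∈ OP A U α β}} =
      Prod.snd '' {x : ℝ × (((ℝ × ℝ) × (ℝ × ℝ)) × M) | (N:ℝ) < x.1 ∧
      ENNReal.ofReal (β - α - (1 / 2) ^ k) < volume {θ : ℝ | (x, θ) ∈ OP A U α β}} := by
    ext y
    constructor
    · rintro ⟨t, ht1, ht2⟩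
      exact ⟨(t, y), ⟨ht1, ht2⟩, rfl⟩
    · rintro ⟨⟨t, y'⟩, ⟨ht1, ht2⟩, rfl⟩
      exact ⟨t, ht1, ht2⟩
  rw [h4]
  exact h3

/-- the pairs `(z, p)` such that the circles around `p` do not concentrate along `(α, β)` -/
def GoodP [SecondCountableTopology M] (A : TransAtlas M) (α β : ℝ) :
    Set (((ℝ × ℝ) × (ℝ × ℝ)) × M) :=
  {y | ∀ q : M, ∃ U ∈ TopologicalSpace.countableBasis M, q ∈ U ∧ y ∉ BadP A α β U}

theorem measurable_GoodP [T2Space M] [MeasurableSpace M] [BorelSpace M]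
    [SecondCountableTopology M] (A : TransAtlas M) (α β : ℝ) : MeasurableSet (GoodP A α β) := by
  have hlc := locallyCompact A
  set B := TopologicalSpace.countableBasis M with hB
  set C : Set (Set (Set M)) := {F | F.Finite ∧ F ⊆ B} with hC
  have hCc : C.Countable :=
    Set.countable_ofPred_finite_subset (TopologicalSpace.countable_countableBasis M)
  have h1 : GoodP A α β = ⋂ n : ℕ, ⋃ F ∈ C,
      ({y | compactCovering M n ⊆ ⋃₀ F} ∩ ⋂ U ∈ F, (BadP A α β U)ᶜ) := by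
    ext y
    simp only [mem_iInter, mem_iUnion, mem_inter_iff, mem_ofPred_eq, mem_compl_iff, exists_prop]
    constructor
    · intro hy n
      choose U hU hqU hbad using hy
      have hUo : ∀ q, IsOpen (U q) := fun q => TopologicalSpace.isOpen_of_mem_countableBasis (hU q)
      obtain ⟨t, _, ht⟩ := (isCompact_compactCovering M n).elim_nhds_subcover U
        (fun q _ => (hUo q).mem_nhds (hqU q))
      refine ⟨U '' (t : Set M), ⟨t.finite_toSet.image U, ?_⟩, ?_, ?_⟩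
      · rintro _ ⟨q, _, rfl⟩; exact hU q
      · intro x hx
        obtain ⟨q, hq, hxq⟩ := mem_iUnion₂.1 (ht hx)
        exact ⟨U q, ⟨q, hq, rfl⟩, hxq⟩
      · rintro _ ⟨q, _, rfl⟩; exact hbad q
    · intro hy q
      obtain ⟨n, hn⟩ := exists_mem_compactCovering q
      obtain ⟨F, ⟨_, hFB⟩, hcov, hbad⟩ := hy n
      obtain ⟨U, hU, hqU⟩ := hcov hn
      exact ⟨U, hFB hU, hqU, hbad U hU⟩
  rw [h1]
  refine MeasurableSet.iInter fun n => MeasurableSet.biUnion hCc fun F hF => ?_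
  refine (MeasurableSet.const _).inter (MeasurableSet.biInter hF.1.countable fun U hU => ?_)
  exact (measurable_BadP (TopologicalSpace.isOpen_of_mem_countableBasis (hF.2 hU))).compl

/-- from a hit to a straight path of the deformed surface -/
theorem path_of_hit {A : TransAtlas M} {z : (ℝ × ℝ) × (ℝ × ℝ)}
    {g : (ℝ × ℝ) ≃L[ℝ] (ℝ × ℝ)} (h1 : g (1, 0) = z.1) (h2 : g (0, 1) = z.2) {p : M} {U : Set M}
    {t θ : ℝ} (ht : 0 < t) (h : t • inv2 z (Real.cos θ, Real.sin θ) ∈ Hit A p U) :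
    ∃ c : ℝ → M, c 0 = p ∧ Straight (A.deform g) (Real.cos θ, Real.sin θ) (Icc 0 t) c ∧ c t ∈ U := by
  obtain ⟨c, hc0, hc, hc1⟩ := h
  refine ⟨fun s => c (t⁻¹ * s), by simpa using hc0, ?_, ?_⟩
  · apply straight_deform_rev
    rw [← symm_eq h1 h2 (dt_ne_zero h1 h2)] at hc
    have := straight_scale (lam := t⁻¹) (J := Icc 0 t) hc (by
      intro s hs
      refine ⟨mul_nonneg (inv_nonneg.2 ht.le) hs.1, ?_⟩
      rw [inv_mul_le_iff₀ ht]; linarith [hs.2])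
    rwa [smul_smul, inv_mul_cancel₀ ht.ne', one_smul] at this
  · show c (t⁻¹ * t) ∈ U
    rw [inv_mul_cancel₀ ht.ne']
    exact hc1

/-- from a straight path of the deformed surface to a hit -/
theorem hit_of_path {A : TransAtlas M} {z : (ℝ × ℝ) × (ℝ × ℝ)}
    {g : (ℝ × ℝ) ≃L[ℝ] (ℝ × ℝ)} (h1 : g (1, 0) = z.1) (h2 : g (0, 1) = z.2) {p : M} {U : Set M}
    {t θ : ℝ} (ht : 0 < t) (h : ∃ c : ℝ → M, c 0 = p ∧
      Straight (A.deform g) (Real.cos θ, Real.sin θ) (Icc 0 t) c ∧ c t ∈ U) :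
    t • inv2 z (Real.cos θ, Real.sin θ) ∈ Hit A p U := by
  obtain ⟨c, hc0, hc, hcU⟩ := h
  rw [← symm_eq h1 h2 (dt_ne_zero h1 h2)]
  refine ⟨fun s => c (t * s), by simpa using hc0, ?_, by simpa using hcU⟩
  refine straight_scale (straight_deform hc) ?_
  intro s hs
  exact ⟨mul_nonneg ht.le hs.1, by nlinarith [ht, hs.2]⟩

/-- The circles around `p` in the deformed surface do not concentrate at any point along any open
interval of directions. -/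
def NoConc (A : TransAtlas M) (g : (ℝ × ℝ) ≃L[ℝ] (ℝ × ℝ)) (p : M) : Prop :=
  ∀ (q : M) (α β : ℝ), α < β → ∃ U ∈ 𝓝 q, ∃ η > 0, ∃ T : ℝ, ∀ t ≥ T,
    volume {θ : ℝ | θ ∈ Ioo α β ∧ ∃ c : ℝ → M, c 0 = p ∧
      Straight (A.deform g) (Real.cos θ, Real.sin θ) (Icc 0 t) c ∧ c t ∈ U}
        ≤ ENNReal.ofReal (β - α - η)

theorem not_commonReturn_of_noConc {A : TransAtlas M} {z : (ℝ × ℝ) × (ℝ × ℝ)}
    {g : (ℝ × ℝ) ≃L[ℝ] (ℝ × ℝ)} (h1 : g (1, 0) = z.1) (h2 : g (0, 1) = z.2) {p : M}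
    (h : NoConc A g p) : ¬ CommonReturn (A.deform g) p := by
  intro hcr
  obtain ⟨U, hU, η, hη, T, hT⟩ := h p 0 1 (by norm_num)
  obtain ⟨V, hVU, hVo, hpV⟩ := mem_nhds_iff.1 hU
  have hbad := bad_of_commonReturn h1 h2 hcr hVo hpV
  obtain ⟨k, hk⟩ := exists_pow_lt_of_lt_one hη (by norm_num : (1 / 2 : ℝ) < 1)
  obtain ⟨N, hN⟩ := exists_nat_ge (max T 0)
  obtain ⟨t, ht1, ht2⟩ := hbad k N
  have ht3 : T ≤ t := (le_max_left _ _).trans (hN.trans ht1.le)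
  have ht0 : 0 < t := lt_of_le_of_lt ((le_max_right _ _).trans hN) ht1
  refine absurd ht2 (not_lt.2 ?_)
  refine (measure_mono ?_).trans ((hT t ht3).trans (ENNReal.ofReal_le_ofReal (by linarith)))
  rintro θ ⟨_, hθI, hθ⟩
  obtain ⟨c, hc0, hc, hc1⟩ := path_of_hit h1 h2 ht0 hθ
  exact ⟨hθI, c, hc0, hc, hVU hc1⟩

theorem goodP_ae [T2Space M] [SecondCountableTopology M] (an : AnStmt) (A : TransAtlas M) (p : M) :
    ∀ᵐ z : (ℝ × ℝ) × (ℝ × ℝ), dt z ≠ 0 → ∀ a b : ℚ, (a:ℝ) < b → (z, p) ∈ GoodP A a b := by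
  filter_upwards [main_strong an A p] with z hz hD a b hab q
  obtain ⟨g, hg1, hg2⟩ := exists_equiv z hD
  obtain ⟨U, hU, η, hη, T, hT⟩ := hz g hg1 hg2 q a b hab
  obtain ⟨V, hV, hqV, hVU⟩ := (TopologicalSpace.isBasis_countableBasis M).mem_nhds_iff.1 hU
  refine ⟨V, hV, hqV, ?_⟩
  intro hbad
  obtain ⟨k, hk⟩ := exists_pow_lt_of_lt_one hη (by norm_num : (1 / 2 : ℝ) < 1)
  obtain ⟨N, hN⟩ := exists_nat_ge (max T 0)
  obtain ⟨t, ht1, ht2⟩ := hbad k N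
  have ht3 : T ≤ t := (le_max_left _ _).trans (hN.trans ht1.le)
  have ht0 : 0 < t := lt_of_le_of_lt ((le_max_right _ _).trans hN) ht1
  refine absurd ht2 (not_lt.2 ?_)
  refine (measure_mono ?_).trans ((hT t ht3).trans (ENNReal.ofReal_le_ofReal (by linarith)))
  rintro θ ⟨_, hθI, hθ⟩
  obtain ⟨c, hc0, hc, hc1⟩ := path_of_hit hg1 hg2 ht0 hθ
  exact ⟨hθI, c, hc0, hc, hVU hc1⟩

theorem noConc_of_good [SecondCountableTopology M] {A : TransAtlas M} {z : (ℝ × ℝ) × (ℝ × ℝ)}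
    {g : (ℝ × ℝ) ≃L[ℝ] (ℝ × ℝ)} (h1 : g (1, 0) = z.1) (h2 : g (0, 1) = z.2) {p : M}
    (h : ∀ a b : ℚ, (a:ℝ) < b → (z, p) ∈ GoodP A a b) : NoConc A g p := by
  intro q α β hαβ
  obtain ⟨a, ha1, ha2⟩ := exists_rat_btwn hαβ
  obtain ⟨b, hb1, hb2⟩ := exists_rat_btwn ha2
  obtain ⟨U, hU, hqU, hbad⟩ := h a b hb1 q
  refine ⟨U, (TopologicalSpace.isOpen_of_mem_countableBasis hU).mem_nhds hqU, ?_⟩
  have hbad' : ∃ k N : ℕ, ∀ t : ℝ, (N:ℝ) < t →
      volume {θ : ℝ | ((t, (z, p)), θ) ∈ OP A U a b} ≤ ENNReal.ofReal ((b:ℝ) - a - (1 / 2) ^ k) := by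
    by_contra hcon
    push Not at hcon
    exact hbad hcon
  obtain ⟨k, N, hkN⟩ := hbad'
  have hkpos : (0:ℝ) < (1 / 2) ^ k := by positivity
  have hlen : (0:ℝ) < (b:ℝ) - a := by linarith
  refine ⟨min ((1 / 2) ^ k) ((b:ℝ) - a), lt_min hkpos hlen, N + 1, fun t ht => ?_⟩
  have ht1 : (N:ℝ) < t := by linarith
  have ht0 : 0 < t := lt_of_le_of_lt (Nat.cast_nonneg N) ht1
  have hsub : {θ : ℝ | θ ∈ Ioo α β ∧ ∃ c : ℝ → M, c 0 = p ∧
      Straight (A.deform g) (Real.cos θ, Real.sin θ) (Icc 0 t) c ∧ c t ∈ U} ⊆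
      {θ : ℝ | ((t, (z, p)), θ) ∈ OP A U a b} ∪ (Ioc α a ∪ Ico b β) := by
    rintro θ ⟨hθI, hθ⟩
    by_cases h3 : θ ≤ a
    · exact Or.inr (Or.inl ⟨hθI.1, h3⟩)
    · by_cases h4 : b ≤ θ
      · exact Or.inr (Or.inr ⟨h4, hθI.2⟩)
      · exact Or.inl ⟨dt_ne_zero h1 h2, ⟨not_le.1 h3, not_le.1 h4⟩, hit_of_path h1 h2 ht0 hθ⟩
  have hv1 : volume (Ioc α (a:ℝ)) = ENNReal.ofReal (a - α) := Real.volume_Ioc
  have hv2 : volume (Ico (b:ℝ) β) = ENNReal.ofReal (β - b) := Real.volume_Ico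
  calc _ ≤ volume ({θ : ℝ | ((t, (z, p)), θ) ∈ OP A U a b} ∪ (Ioc α a ∪ Ico b β)) :=
        measure_mono hsub
    _ ≤ volume {θ : ℝ | ((t, (z, p)), θ) ∈ OP A U a b} + volume (Ioc α (a:ℝ) ∪ Ico (b:ℝ) β) :=
        measure_union_le _ _
    _ ≤ volume {θ : ℝ | ((t, (z, p)), θ) ∈ OP A U a b} +
        (volume (Ioc α (a:ℝ)) + volume (Ico (b:ℝ) β)) := by
        gcongr
        exact measure_union_le _ _
    _ ≤ ENNReal.ofReal (max ((b:ℝ) - a - (1 / 2) ^ k) 0) +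
        (ENNReal.ofReal (a - α) + ENNReal.ofReal (β - b)) := by
        rw [hv1, hv2]
        gcongr
        exact (hkN t ht1).trans (ENNReal.ofReal_le_ofReal (le_max_left _ _))
    _ = ENNReal.ofReal (max ((b:ℝ) - a - (1 / 2) ^ k) 0 + ((a - α) + (β - b))) := by
        rw [ENNReal.ofReal_add (le_max_right _ _) (by linarith),
          ENNReal.ofReal_add (by linarith) (by linarith)]
    _ ≤ ENNReal.ofReal (β - α - min ((1 / 2) ^ k) ((b:ℝ) - a)) := by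
        refine ENNReal.ofReal_le_ofReal ?_
        rcases le_total ((1 / 2 : ℝ) ^ k) ((b:ℝ) - a) with h3 | h3
        · rw [min_eq_left h3, max_eq_left (by linarith)]; linarith
        · rw [min_eq_right h3, max_eq_right (by linarith)]; linarith

/-- **Theorem.**  Almost every deformation, almost every point. -/
theorem main_final [T2Space M] [SecondCountableTopology M] [MeasurableSpace M] [BorelSpace M]
    (an : AnStmt) (A : TransAtlas M) (ν : Measure M) [SFinite ν] :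
    ∀ᵐ z : (ℝ × ℝ) × (ℝ × ℝ), ∀ g : (ℝ × ℝ) ≃L[ℝ] (ℝ × ℝ), g (1, 0) = z.1 → g (0, 1) = z.2 →
      ∀ᵐ p ∂ν, ¬ CommonReturn (A.deform g) p ∧ NoConc A g p := by
  set G : Set (((ℝ × ℝ) × (ℝ × ℝ)) × M) := {y | dt y.1 ≠ 0 →
      ∀ a b : ℚ, (a:ℝ) < b → y ∈ GoodP A a b} with hG
  have hGm : MeasurableSet G := by
    have h1 : G = {y | dt y.1 = 0} ∪ ⋂ a : ℚ, ⋂ b : ℚ,
        ({y | ¬ (a:ℝ) < b} ∪ GoodP A (a:ℝ) (b:ℝ)) := by
      ext y
      simp only [hG, mem_ofPred_eq, mem_union, mem_iInter]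
      constructor
      · intro h
        by_cases h0 : dt y.1 = 0
        · exact Or.inl h0
        · refine Or.inr fun a b => ?_
          by_cases h2 : (a:ℝ) < b
          · exact Or.inr (h h0 a b h2)
          · exact Or.inl h2
      · rintro (h | h) h0 a b hab
        · exact absurd h h0
        · rcases h a b with h2 | h2
          · exact absurd hab h2
          · exact h2
    rw [h1]
    refine MeasurableSet.union ?_ ?_
    · exact (isClosed_eq (continuous_dt.comp continuous_fst) continuous_const).measurableSet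
    · refine MeasurableSet.iInter fun a => MeasurableSet.iInter fun b => ?_
      exact (MeasurableSet.const _).union (measurable_GoodP A a b)
  have h1 : ∀ᵐ p ∂ν, ∀ᵐ z : (ℝ × ℝ) × (ℝ × ℝ), (z, p) ∈ G :=
    Eventually.of_forall fun p => goodP_ae an A p
  have hm : MeasurableSet {x : M × ((ℝ × ℝ) × (ℝ × ℝ)) | (x.2, x.1) ∈ G} :=
    measurable_swap hGm
  have h2 : ∀ᵐ z : (ℝ × ℝ) × (ℝ × ℝ), ∀ᵐ p ∂ν, (z, p) ∈ G :=
    (Measure.ae_ae_comm (p := fun p z => (z, p) ∈ G) hm).1 h1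
  filter_upwards [h2] with z hz g hg1 hg2
  filter_upwards [hz] with p hp
  have h3 := noConc_of_good hg1 hg2 (hp (dt_ne_zero hg1 hg2))
  exact ⟨not_commonReturn_of_noConc hg1 hg2 h3, h3⟩

end Pool.Agent.CRP.H90
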