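import Pool.Agent.CRP.Defs

namespace Pool.Agent.CRP.H90

open MeasureTheory Filter Topology Set Pool.Agent.CRP

variable {M : Type*} [TopologicalSpace M]

theorem straight_mono {A : TransAtlas M} {v : ℝ × ℝ} {I J : Set ℝ} {c : ℝ → M}
    (h : Straight A v I c) (hJ : J ⊆ I) : Straight A v J c := by
  intro s hs φ hφ hsφ
  exact (h s (hJ hs) φ hφ hsφ).filter_mono (nhdsWithin_mono s hJ)

theorem straight_congr {A : TransAtlas M} {v : ℝ × ℝ} {I : Set ℝ} {c c' : ℝ → M}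
    (h : Straight A v I c) (he : EqOn c c' I) : Straight A v I c' := by
  intro s hs φ hφ hsφ
  have h1 := h s hs φ hφ (by rw [he hs]; exact hsφ)
  filter_upwards [h1, self_mem_nhdsWithin] with s' hs' hI
  rw [he hI, he hs] at hs'
  exact hs'

theorem straight_union {A : TransAtlas M} {v : ℝ × ℝ} {I J : Set ℝ} {c : ℝ → M}
    (hI : IsClosed I) (hJ : IsClosed J)
    (h1 : Straight A v I c) (h2 : Straight A v J c) : Straight A v (I ∪ J) c := by
  intro s hs φ hφ hsφ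
  rw [nhdsWithin_union, eventually_sup]
  constructor
  · by_cases hsI : s ∈ I
    · exact h1 s hsI φ hφ hsφ
    · have : 𝓝[I] s = ⊥ :=
        (notMem_closure_iff_nhdsWithin_eq_bot).1 (by rwa [hI.closure_eq])
      rw [this]; exact eventually_bot
  · by_cases hsJ : s ∈ J
    · exact h2 s hsJ φ hφ hsφ
    · have : 𝓝[J] s = ⊥ :=
        (notMem_closure_iff_nhdsWithin_eq_bot).1 (by rwa [hJ.closure_eq])
      rw [this]; exact eventually_bot

theorem straight_continuousOn {A : TransAtlas M} {v : ℝ × ℝ} {I : Set ℝ} {c : ℝ → M}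
    (h : Straight A v I c) : ContinuousOn c I := by
  intro s hs
  obtain ⟨φ, hφ, hsφ⟩ := A.cover (c s)
  have h1 := h s hs φ hφ hsφ
  have h2 : Tendsto (fun s' => φ (c s) + (s' - s) • v) (𝓝[I] s) (𝓝 (φ (c s))) := by
    have : ContinuousAt (fun s' => φ (c s) + (s' - s) • v) s := by fun_prop
    have h3 := this.tendsto
    simp only [sub_self, zero_smul, add_zero] at h3
    exact h3.mono_left nhdsWithin_le_nhds
  have h4 : Tendsto (fun s' => φ.symm (φ (c s) + (s' - s) • v)) (𝓝[I] s) (𝓝 (c s)) := by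
    have h5 := φ.symm.continuousAt (φ.map_source hsφ)
    have h6 := h5.tendsto.comp h2
    rw [φ.left_inv hsφ] at h6
    exact h6
  refine h4.congr' ?_
  filter_upwards [h1] with s' hs'
  rw [← hs'.2, φ.left_inv hs'.1]

/-- the segment path in a chart is straight -/
theorem straight_segment (A : TransAtlas M) {φ : OpenPartialHomeomorph M (ℝ × ℝ)}
    (hφ : φ ∈ A.charts) (w z : ℝ × ℝ) (s₁ : ℝ) {J : Set ℝ}
    (hJ : ∀ s ∈ J, z + (s - s₁) • w ∈ φ.target) :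
    Straight A w J (fun s => φ.symm (z + (s - s₁) • w)) := by
  intro s hs ψ hψ hsψ
  have ht := hJ s hs
  have hc : Tendsto (fun s' => φ.symm (z + (s' - s₁) • w)) (𝓝[J] s)
      (𝓝 (φ.symm (z + (s - s₁) • w))) := by
    have h5 := φ.symm.continuousAt (x := z + (s - s₁) • w) ht
    have h6 : ContinuousAt (fun s' : ℝ => z + (s' - s₁) • w) s := by fun_prop
    exact (h5.tendsto.comp h6.tendsto).mono_left nhdsWithin_le_nhds
  obtain ⟨c₀, hc₀⟩ := A.compat φ hφ ψ hψ _ (φ.map_target ht) hsψ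
  have h7 := hc₀.self_of_nhds
  have h8 := hc.eventually hc₀
  have h9 := hc.eventually (ψ.open_source.mem_nhds hsψ)
  filter_upwards [h8, h9, self_mem_nhdsWithin] with s' hs1 hs2 hs3
  refine ⟨hs2, ?_⟩
  rw [hs1, h7, φ.right_inv (hJ s' hs3), φ.right_inv ht]
  have : (s' - s₁) • w = (s - s₁) • w + (s' - s) • w := by rw [← add_smul]; congr 1; ring
  rw [this]; abel

theorem straight_unique [T2Space M] {A : TransAtlas M} {v : ℝ × ℝ} {a b : ℝ} {c₁ c₂ : ℝ → M}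
    (h1 : Straight A v (Icc a b) c₁) (h2 : Straight A v (Icc a b) c₂) (h0 : c₁ a = c₂ a) :
    ∀ s ∈ Icc a b, c₁ s = c₂ s := by
  have hcl : IsClosed ({s | c₁ s = c₂ s} ∩ Icc a b) := by
    rw [← closure_subset_iff_isClosed]
    intro s hs
    have hsI : s ∈ Icc a b := isClosed_Icc.closure_subset_iff.2 (inter_subset_right) hs
    refine ⟨?_, hsI⟩
    have : (𝓝[{s | c₁ s = c₂ s} ∩ Icc a b] s).NeBot := mem_closure_iff_nhdsWithin_neBot.1 hs
    have e1 : Tendsto c₁ (𝓝[{s | c₁ s = c₂ s} ∩ Icc a b] s) (𝓝 (c₁ s)) :=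
      ((straight_continuousOn h1) s hsI).tendsto.mono_left (nhdsWithin_mono s inter_subset_right)
    have e2 : Tendsto c₂ (𝓝[{s | c₁ s = c₂ s} ∩ Icc a b] s) (𝓝 (c₂ s)) :=
      ((straight_continuousOn h2) s hsI).tendsto.mono_left (nhdsWithin_mono s inter_subset_right)
    refine tendsto_nhds_unique_of_eventuallyEq e1 e2 ?_
    filter_upwards [self_mem_nhdsWithin] with s' hs'
    exact hs'.1
  have key := hcl.Icc_subset_of_forall_mem_nhdsWithin (show a ∈ {s | c₁ s = c₂ s} from h0) ?_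
  · intro s hs; exact key hs
  · rintro x ⟨hx, hxI⟩
    have hx' : c₁ x = c₂ x := hx
    obtain ⟨φ, hφ, hsφ⟩ := A.cover (c₁ x)
    have e1 := h1 x (Ico_subset_Icc_self hxI) φ hφ hsφ
    have e2 := h2 x (Ico_subset_Icc_self hxI) φ hφ (hx' ▸ hsφ)
    have hle : 𝓝[>] x ≤ 𝓝[Icc a b] x := by
      rw [← nhdsWithin_Ioo_eq_nhdsGT hxI.2]
      exact nhdsWithin_mono x (fun y hy => ⟨hxI.1.trans hy.1.le, hy.2.le⟩)
    filter_upwards [hle e1, hle e2] with s' hs1 hs2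
    have : φ (c₁ s') = φ (c₂ s') := by rw [hs1.2, hs2.2, hx']
    exact φ.injOn hs1.1 hs2.1 this

theorem straight_scale {A : TransAtlas M} {v : ℝ × ℝ} {c : ℝ → M} {lam : ℝ} {I J : Set ℝ}
    (h : Straight A v I c) (hJ : ∀ s ∈ J, lam * s ∈ I) :
    Straight A (lam • v) J (fun s => c (lam * s)) := by
  intro s hs φ hφ hsφ
  have h1 := h (lam * s) (hJ s hs) φ hφ hsφ
  have h2 : Tendsto (fun s' => lam * s') (𝓝[J] s) (𝓝[I] (lam * s)) := by
    refine tendsto_nhdsWithin_iff.2 ⟨?_, ?_⟩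
    · have : ContinuousAt (fun s' => lam * s') s := by fun_prop
      exact this.tendsto.mono_left nhdsWithin_le_nhds
    · filter_upwards [self_mem_nhdsWithin] with s' hs'
      exact hJ s' hs'
  filter_upwards [h2.eventually h1] with s' hs'
  refine ⟨hs'.1, ?_⟩
  rw [hs'.2, smul_smul]
  congr 2
  ring

theorem straight_deform {A : TransAtlas M} {g : (ℝ × ℝ) ≃L[ℝ] (ℝ × ℝ)} {w : ℝ × ℝ}
    {I : Set ℝ} {c : ℝ → M} (h : Straight (A.deform g) w I c) : Straight A (g.symm w) I c := by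
  intro s hs φ hφ hsφ
  have h1 := h s hs (φ.transHomeomorph g.toHomeomorph) ⟨φ, hφ, rfl⟩ hsφ
  filter_upwards [h1] with s' hs'
  refine ⟨hs'.1, ?_⟩
  have h2 : g (φ (c s')) = g (φ (c s)) + (s' - s) • w := hs'.2
  have h3 := congrArg g.symm h2
  simpa using h3

/-- local continuation step -/
theorem continuation_step {A : TransAtlas M} {p : M} {v : ℝ × ℝ} {T : ℝ} {c : ℝ → M}
    (h : Straight A v (Icc 0 T) c) {s₀ : ℝ} (hs₀ : s₀ ∈ Icc 0 T) :
    ∃ δ > 0, ∀ s₁ ∈ Icc (0:ℝ) T, ∀ s₂ ∈ Icc (0:ℝ) T, |s₁ - s₀| < δ → |s₂ - s₀| < δ → s₁ ≤ s₂ →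
      (∀ N ∈ 𝓝 (c s₁), ∀ᶠ w in 𝓝 v, ∃ c' : ℝ → M, c' 0 = p ∧ c' s₁ ∈ N ∧
        Straight A w (Icc 0 s₁) c') →
      (∀ N ∈ 𝓝 (c s₂), ∀ᶠ w in 𝓝 v, ∃ c' : ℝ → M, c' 0 = p ∧ c' s₂ ∈ N ∧
        Straight A w (Icc 0 s₂) c') := by
  obtain ⟨φ, hφ, hsφ⟩ := A.cover (c s₀)
  have h1 := h s₀ hs₀ φ hφ hsφ
  obtain ⟨ρ, hρ, hball⟩ := Metric.isOpen_iff.1 φ.open_target _ (φ.map_source hsφ)
  obtain ⟨δ₁, hδ₁, hd1⟩ := Metric.mem_nhdsWithin_iff.1 h1
  set V : ℝ := ‖v‖ + 1 with hV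
  have hVpos : 0 < V := by positivity
  refine ⟨min δ₁ (ρ / (8 * V)), by positivity, ?_⟩
  intro s₁ hs₁ s₂ hs₂ hd₁ hd₂ h12 hP N hN
  have hloc : ∀ s ∈ Icc (0:ℝ) T, |s - s₀| < min δ₁ (ρ / (8 * V)) →
      c s ∈ φ.source ∧ φ (c s) = φ (c s₀) + (s - s₀) • v := by
    intro s hs hd
    exact hd1 ⟨by rw [Metric.mem_ball, Real.dist_eq]; exact hd.trans_le (min_le_left _ _), hs⟩
  obtain ⟨hc1, he1⟩ := hloc s₁ hs₁ hd₁
  obtain ⟨hc2, he2⟩ := hloc s₂ hs₂ hd₂
  have he12 : φ (c s₂) = φ (c s₁) + (s₂ - s₁) • v := by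
    rw [he1, he2, add_assoc, ← add_smul]; congr 2; ring
  -- the continuation map
  have hcont : ContinuousAt (fun z : M × (ℝ × ℝ) => φ.symm (φ z.1 + (s₂ - s₁) • z.2)) (c s₁, v) := by
    have a1 : ContinuousAt (fun z : M × (ℝ × ℝ) => φ z.1 + (s₂ - s₁) • z.2) (c s₁, v) := by
      have a2 : ContinuousAt (fun z : M × (ℝ × ℝ) => φ z.1) (c s₁, v) :=
        ContinuousAt.comp (f := fun z : M × (ℝ × ℝ) => z.1) (g := φ) (x := (c s₁, v))
          (φ.continuousAt hc1) continuousAt_fst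
      have a3 : ContinuousAt (fun z : M × (ℝ × ℝ) => (s₂ - s₁) • z.2) (c s₁, v) :=
        continuousAt_snd.const_smul (s₂ - s₁)
      exact a2.add a3
    refine ContinuousAt.comp (g := φ.symm) ?_ a1
    show ContinuousAt φ.symm (φ (c s₁) + (s₂ - s₁) • v)
    rw [← he12]
    exact φ.symm.continuousAt (φ.map_source hc2)
  have hval : φ.symm (φ (c s₁) + (s₂ - s₁) • v) = c s₂ := by
    rw [← he12, φ.left_inv hc2]
  have hpre : ∀ᶠ z : M × (ℝ × ℝ) in 𝓝 (c s₁, v), φ.symm (φ z.1 + (s₂ - s₁) • z.2) ∈ N := by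
    have := hcont.tendsto
    simp only [hval] at this
    exact this.eventually hN
  have hsrc : ∀ᶠ q in 𝓝 (c s₁), q ∈ φ.source ∧ ‖φ q - φ (c s₁)‖ < ρ / 4 := by
    have a1 : ∀ᶠ q in 𝓝 (c s₁), q ∈ φ.source := φ.open_source.mem_nhds hc1
    have a2 : ∀ᶠ q in 𝓝 (c s₁), ‖φ q - φ (c s₁)‖ < ρ / 4 := by
      have := (φ.continuousAt hc1).tendsto
      have h3 := this.eventually (Metric.ball_mem_nhds (φ (c s₁)) (show 0 < ρ / 4 by positivity))
      filter_upwards [h3] with q hq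
      rw [dist_eq_norm] at hq; exact hq
    exact a1.and a2
  rw [nhds_prod_eq] at hpre
  obtain ⟨P1, hP1, P2, hP2, hPP⟩ := eventually_prod_iff.1 hpre
  have hw1 : ∀ᶠ w in 𝓝 v, ‖w‖ < V := by
    have : Tendsto (fun w : ℝ × ℝ => ‖w‖) (𝓝 v) (𝓝 ‖v‖) := continuous_norm.continuousAt
    exact this.eventually (gt_mem_nhds (by rw [hV]; linarith))
  filter_upwards [hP _ (hP1.and hsrc), hP2, hw1] with w ⟨c', hc'0, hc'1, hc'2⟩ hw2 hwV
  obtain ⟨hq1, hq2, hq3⟩ := hc'1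
  have htarget : ∀ s ∈ Icc s₁ s₂, φ (c' s₁) + (s - s₁) • w ∈ φ.target := by
    intro s hs
    apply hball
    rw [Metric.mem_ball, dist_eq_norm]
    have e1 : φ (c' s₁) + (s - s₁) • w - φ (c s₀)
        = (φ (c' s₁) - φ (c s₁)) + (s₁ - s₀) • v + (s - s₁) • w := by
      rw [he1]; abel
    rw [e1]
    have b1 : ‖(s₁ - s₀) • v‖ ≤ ρ / 8 := by
      rw [norm_smul, Real.norm_eq_abs]
      have : |s₁ - s₀| ≤ ρ / (8 * V) := (hd₁.trans_le (min_le_right _ _)).le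
      calc |s₁ - s₀| * ‖v‖ ≤ (ρ / (8 * V)) * V := by
            refine mul_le_mul this (by rw [hV]; linarith) (norm_nonneg _) (by positivity)
        _ = ρ / 8 := by field_simp
    have b2 : ‖(s - s₁) • w‖ ≤ ρ / 4 := by
      rw [norm_smul, Real.norm_eq_abs]
      have h3 : |s - s₁| ≤ ρ / (4 * V) := by
        rw [abs_of_nonneg (by linarith [hs.1])]
        have h4 : s₂ - s₁ ≤ |s₂ - s₀| + |s₁ - s₀| := by
          have := abs_sub_abs_le_abs_sub (s₂ - s₀) (s₁ - s₀)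
          have h5 : s₂ - s₁ = (s₂ - s₀) - (s₁ - s₀) := by ring
          rw [h5]
          have := le_abs_self (s₂ - s₀)
          have := neg_abs_le (s₁ - s₀)
          linarith
        have h6 := (hd₁.trans_le (min_le_right _ _)).le
        have h7 := (hd₂.trans_le (min_le_right _ _)).le
        have h8 : ρ / (8 * V) + ρ / (8 * V) = ρ / (4 * V) := by field_simp; norm_num
        linarith [hs.2]
      calc |s - s₁| * ‖w‖ ≤ (ρ / (4 * V)) * V := by
            refine mul_le_mul h3 hwV.le (norm_nonneg _) (by positivity)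
        _ = ρ / 4 := by field_simp
    calc ‖(φ (c' s₁) - φ (c s₁)) + (s₁ - s₀) • v + (s - s₁) • w‖
        ≤ ‖φ (c' s₁) - φ (c s₁)‖ + ‖(s₁ - s₀) • v‖ + ‖(s - s₁) • w‖ := norm_add₃_le
      _ < ρ := by linarith
  have hseg := straight_segment A hφ w (φ (c' s₁)) s₁ htarget
  refine ⟨fun s => if s ≤ s₁ then c' s else φ.symm (φ (c' s₁) + (s - s₁) • w), ?_, ?_, ?_⟩
  · simp only [hs₁.1, if_true]; exact hc'0
  · have hmem : φ.symm (φ (c' s₁) + (s₂ - s₁) • w) ∈ N := hPP hq1 hw2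
    by_cases h3 : s₂ ≤ s₁
    · have h4 : s₂ = s₁ := le_antisymm h3 h12
      simp only [h3, if_true]
      rw [h4] at hmem ⊢
      simp only [sub_self, zero_smul, add_zero] at hmem
      rwa [φ.left_inv hq2] at hmem
    · simp only [h3, if_false]; exact hmem
  · have e3 : Icc (0:ℝ) s₂ = Icc 0 s₁ ∪ Icc s₁ s₂ := (Icc_union_Icc_eq_Icc hs₁.1 h12).symm
    rw [e3]
    refine straight_union isClosed_Icc isClosed_Icc ?_ ?_
    · refine straight_congr hc'2 ?_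
      intro s hs
      simp only [hs.2, if_true]
    · refine straight_congr hseg ?_
      intro s hs
      by_cases h3 : s ≤ s₁
      · have h4 : s = s₁ := le_antisymm h3 hs.1
        simp only [if_true, h4, sub_self, zero_smul, add_zero, le_refl]
        exact φ.left_inv hq2
      · simp only [h3, if_false]

theorem continuation {A : TransAtlas M} {p : M} {v : ℝ × ℝ} {T : ℝ} (hT : 0 ≤ T) {c : ℝ → M}
    (h : Straight A v (Icc 0 T) c) (hc0 : c 0 = p) :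
    ∀ N ∈ 𝓝 (c T), ∀ᶠ w in 𝓝 v, ∃ c' : ℝ → M, c' 0 = p ∧ c' T ∈ N ∧
        Straight A w (Icc 0 T) c' := by
  have hstep : ∀ x : Icc (0:ℝ) T, ∃ δ > 0, ∀ s₁ ∈ Icc (0:ℝ) T, ∀ s₂ ∈ Icc (0:ℝ) T,
      |s₁ - x| < δ → |s₂ - x| < δ → s₁ ≤ s₂ →
      (∀ N ∈ 𝓝 (c s₁), ∀ᶠ w in 𝓝 v, ∃ c' : ℝ → M, c' 0 = p ∧ c' s₁ ∈ N ∧
        Straight A w (Icc 0 s₁) c') →
      (∀ N ∈ 𝓝 (c s₂), ∀ᶠ w in 𝓝 v, ∃ c' : ℝ → M, c' 0 = p ∧ c' s₂ ∈ N ∧
        Straight A w (Icc 0 s₂) c') := fun x => continuation_step (p := p) h x.2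
  choose δ hδ hstep using hstep
  obtain ⟨t, ht0, htm, ⟨m, hm⟩, hcov⟩ := exists_monotone_Icc_subset_open_cover_Icc hT
    (c := fun x : Icc (0:ℝ) T => {y : Icc (0:ℝ) T | |(y : ℝ) - x| < δ x})
    (fun x => by
      have : Continuous (fun y : Icc (0:ℝ) T => |(y : ℝ) - x|) := by fun_prop
      exact isOpen_lt this continuous_const)
    (fun x _ => by
      rw [mem_iUnion]
      exact ⟨x, by simpa using hδ x⟩)
  have hind : ∀ n : ℕ, ∀ N ∈ 𝓝 (c (t n)), ∀ᶠ w in 𝓝 v, ∃ c' : ℝ → M, c' 0 = p ∧ c' (t n) ∈ N ∧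
        Straight A w (Icc 0 (t n)) c' := by
    intro n
    induction n with
    | zero =>
      intro N hN
      have h0 : ((t 0 : Icc (0:ℝ) T) : ℝ) = 0 := by rw [ht0]
      rw [h0] at hN ⊢
      refine Eventually.of_forall fun w => ⟨c, hc0, mem_of_mem_nhds hN, ?_⟩
      intro s hs φ hφ hsφ
      rw [Icc_self] at hs ⊢
      rw [mem_singleton_iff] at hs
      subst hs
      rw [nhdsWithin_singleton]
      simp [hsφ]
    | succ n ih =>
      obtain ⟨x, hx⟩ := hcov n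
      have h1 : |((t n : Icc (0:ℝ) T) : ℝ) - x| < δ x := hx ⟨le_refl _, htm (Nat.le_succ n)⟩
      have h2 : |((t (n+1) : Icc (0:ℝ) T) : ℝ) - x| < δ x := hx ⟨htm (Nat.le_succ n), le_refl _⟩
      exact hstep x (t n) (t n).2 (t (n+1)) (t (n+1)).2 h1 h2 (htm (Nat.le_succ n)) ih
  have h3 := hind m
  have h4 : ((t m : Icc (0:ℝ) T) : ℝ) = T := by rw [hm m le_rfl]
  rw [h4] at h3
  exact h3

end Pool.Agent.CRP.H90
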