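import Pool.Agent.Helper90_CRP.Geo

namespace Pool.Agent.CRP.H90

open MeasureTheory Filter Topology Set Pool.Agent.CRP

variable {M : Type*} [TopologicalSpace M]

/-- The vectors `w` such that the straight path with velocity `w` from `p` exists on `[0,1]` and
ends in `U`. -/
def Hit (A : TransAtlas M) (p : M) (U : Set M) : Set (ℝ × ℝ) :=
  {w | ∃ c : ℝ → M, c 0 = p ∧ Straight A w (Icc 0 1) c ∧ c 1 ∈ U}

theorem hit_open {A : TransAtlas M} {p : M} {U : Set M} (hU : IsOpen U) :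
    IsOpen (Hit A p U) := by
  rw [isOpen_iff_mem_nhds]
  rintro v ⟨c, hc0, hc, hc1⟩
  have h := continuation zero_le_one hc hc0 U (hU.mem_nhds hc1)
  filter_upwards [h] with w hw
  obtain ⟨c', h1, h2, h3⟩ := hw
  exact ⟨c', h1, h3, h2⟩

theorem hit_gap [T2Space M] {A : TransAtlas M} {p q : M} {φ : OpenPartialHomeomorph M (ℝ × ℝ)}
    (hφ : φ ∈ A.charts) {r ε : ℝ} (hr : Metric.ball (φ q) r ⊆ φ.target) (w : ℝ × ℝ)
    {s₁ s₂ : ℝ} (h0 : 0 < s₁) (h12 : s₁ < s₂)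
    (h1 : s₁ • w ∈ Hit A p (φ.source ∩ φ ⁻¹' Metric.ball (φ q) ε))
    (h2 : s₂ • w ∈ Hit A p (φ.source ∩ φ ⁻¹' Metric.ball (φ q) ε)) :
    (s₂ - s₁) * ‖w‖ < 2 * ε ∨ r - ε ≤ (s₂ - s₁) * ‖w‖ := by
  by_contra hcon
  push Not at hcon
  obtain ⟨hc1, hc2⟩ := hcon
  obtain ⟨c₁, a1, b1, d1⟩ := h1
  obtain ⟨c₂, a2, b2, d2⟩ := h2
  have hs2 : 0 < s₂ := h0.trans h12
  -- rescaled paths of velocity `w`
  have e1 : Straight A w (Icc 0 s₁) (fun s => c₁ (s₁⁻¹ * s)) := by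
    have := straight_scale (lam := s₁⁻¹) (J := Icc 0 s₁) b1 (by
      intro s hs
      refine ⟨mul_nonneg (inv_nonneg.2 h0.le) hs.1, ?_⟩
      rw [inv_mul_le_iff₀ h0]; linarith [hs.2])
    rwa [smul_smul, inv_mul_cancel₀ h0.ne', one_smul] at this
  have e2 : Straight A w (Icc 0 s₂) (fun s => c₂ (s₂⁻¹ * s)) := by
    have := straight_scale (lam := s₂⁻¹) (J := Icc 0 s₂) b2 (by
      intro s hs
      refine ⟨mul_nonneg (inv_nonneg.2 hs2.le) hs.1, ?_⟩
      rw [inv_mul_le_iff₀ hs2]; linarith [hs.2])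
    rwa [smul_smul, inv_mul_cancel₀ hs2.ne', one_smul] at this
  set C : ℝ → M := fun s => c₂ (s₂⁻¹ * s) with hC
  have hC1 : C s₁ ∈ φ.source ∩ φ ⁻¹' Metric.ball (φ q) ε := by
    have h3 := straight_unique e1 (straight_mono e2 (Icc_subset_Icc_right h12.le))
      (by simp only [hC, mul_zero]; rw [a1, a2]) s₁ ⟨h0.le, le_rfl⟩
    have h4 : c₁ (s₁⁻¹ * s₁) = C s₁ := h3
    rw [inv_mul_cancel₀ h0.ne'] at h4
    rw [← h4]; exact d1
  have hC2 : C s₂ ∈ φ.source ∩ φ ⁻¹' Metric.ball (φ q) ε := by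
    simp only [hC, inv_mul_cancel₀ hs2.ne']; exact d2
  have n1 : ‖φ (C s₁) - φ q‖ < ε := by
    have := hC1.2; rw [mem_preimage, Metric.mem_ball, dist_eq_norm] at this; exact this
  have n2 : ‖φ (C s₂) - φ q‖ < ε := by
    have := hC2.2; rw [mem_preimage, Metric.mem_ball, dist_eq_norm] at this; exact this
  have htarget : ∀ s ∈ Icc s₁ s₂, φ (C s₁) + (s - s₁) • w ∈ φ.target := by
    intro s hs
    apply hr
    rw [Metric.mem_ball, dist_eq_norm]
    have h5 : φ (C s₁) + (s - s₁) • w - φ q = (φ (C s₁) - φ q) + (s - s₁) • w := by abel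
    rw [h5]
    have h6 : ‖(s - s₁) • w‖ ≤ (s₂ - s₁) * ‖w‖ := by
      rw [norm_smul, Real.norm_eq_abs, abs_of_nonneg (by linarith [hs.1])]
      exact mul_le_mul_of_nonneg_right (by linarith [hs.2]) (norm_nonneg _)
    calc _ ≤ ‖φ (C s₁) - φ q‖ + ‖(s - s₁) • w‖ := norm_add_le _ _
      _ < r := by linarith
  have hseg := straight_segment A hφ w (φ (C s₁)) s₁ htarget
  have h7 := straight_unique (a := s₁) (b := s₂) (straight_mono e2 (Icc_subset_Icc_left h0.le)) hseg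
    (by simp only [sub_self, zero_smul, add_zero]; exact (φ.left_inv hC1.1).symm) s₂
      ⟨h12.le, le_rfl⟩
  have h8 : φ (C s₂) = φ (C s₁) + (s₂ - s₁) • w := by
    rw [h7, φ.right_inv (htarget s₂ ⟨h12.le, le_rfl⟩)]
  have h9 : (s₂ - s₁) • w = (φ (C s₂) - φ q) - (φ (C s₁) - φ q) := by rw [h8]; abel
  have h10 : (s₂ - s₁) * ‖w‖ = ‖(s₂ - s₁) • w‖ := by
    rw [norm_smul, Real.norm_eq_abs, abs_of_nonneg (by linarith)]
  rw [h10, h9] at hc1
  have h11 := norm_sub_le (φ (C s₂) - φ q) (φ (C s₁) - φ q)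
  linarith

/-- from a concentration on the deformed surface to hits -/
theorem hit_of_conc {A : TransAtlas M} {g : (ℝ × ℝ) ≃L[ℝ] (ℝ × ℝ)} {p q : M} {θ : ℝ}
    {t : ℕ → ℝ} (ht : Tendsto t atTop atTop) {U : Set M} (hU : U ∈ 𝓝 q)
    (h : ∃ c : ℝ → M, c 0 = p ∧ Straight (A.deform g) (Real.cos θ, Real.sin θ) (Ici 0) c ∧
        Tendsto (fun n => c (t n)) atTop (𝓝 q)) :
    ∀ᶠ n in atTop, t n • g.symm (Real.cos θ, Real.sin θ) ∈ Hit A p U := by
  obtain ⟨c, hc0, hc, hcq⟩ := h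
  filter_upwards [hcq.eventually hU, ht.eventually_gt_atTop 0] with n hn h0
  have hn' : c (t n) ∈ U := hn
  refine ⟨fun s => c (t n * s), by simpa using hc0, ?_, by simpa using hn'⟩
  refine straight_scale (straight_deform hc) ?_
  intro s hs
  exact mul_nonneg h0.le hs.1

end Pool.Agent.CRP.H90
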