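import Pool.Agent.Helper90_CRP.Geo2

namespace Pool.Agent.CRP.H90

open MeasureTheory Filter Topology Set Pool.Agent.CRP

/-- null sets: from directions to slopes -/
theorem null_slopes (k : (ℝ × ℝ) ≃L[ℝ] (ℝ × ℝ)) {N : Set ℝ} (hN : volume N = 0) :
    volume {x : ℝ | ∃ θ ∈ N, ∃ r : ℝ, 0 < r ∧ (Real.cos θ, Real.sin θ) = r • k (1, x)} = 0 := by
  set F : ℝ → ℝ := fun θ =>
    (k.symm (Real.cos θ, Real.sin θ)).2 / (k.symm (Real.cos θ, Real.sin θ)).1 with hF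
  set S : Set ℝ := N ∩ {θ | (k.symm (Real.cos θ, Real.sin θ)).1 ≠ 0} with hS
  have hSn : volume S = 0 := measure_mono_null inter_subset_left hN
  have hd : DifferentiableOn ℝ F S := by
    intro θ hθ
    have h1 : DifferentiableAt ℝ (fun θ : ℝ => k.symm (Real.cos θ, Real.sin θ)) θ := by
      have h2 : DifferentiableAt ℝ (fun θ : ℝ => (Real.cos θ, Real.sin θ)) θ :=
        Real.differentiableAt_cos.prodMk Real.differentiableAt_sin
      exact (k.symm.differentiableAt (x := (Real.cos θ, Real.sin θ))).comp θ h2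
    have h3 : DifferentiableAt ℝ F θ := by
      refine DifferentiableAt.div ?_ ?_ hθ.2
      · exact h1.snd
      · exact h1.fst
    exact h3.differentiableWithinAt
  have h0 := MeasureTheory.addHaar_image_eq_zero_of_differentiableOn_of_addHaar_eq_zero volume hd hSn
  refine measure_mono_null ?_ h0
  rintro x ⟨θ, hθ, r, hr, he⟩
  have h1 : k.symm (Real.cos θ, Real.sin θ) = r • ((1:ℝ), x) := by
    rw [he]; simp
  refine ⟨θ, ⟨hθ, ?_⟩, ?_⟩
  · show (k.symm (Real.cos θ, Real.sin θ)).1 ≠ 0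
    rw [h1]; simp [hr.ne']
  · show (k.symm (Real.cos θ, Real.sin θ)).2 / (k.symm (Real.cos θ, Real.sin θ)).1 = x
    rw [h1]; simp only [Prod.smul_mk, smul_eq_mul, mul_one]
    field_simp

/-- the quadratic form `|u + x v|²` as a triple of coefficients -/
def QF (z : (ℝ × ℝ) × (ℝ × ℝ)) : ℝ × ℝ × ℝ :=
  (z.1.1 ^ 2 + z.1.2 ^ 2, 2 * (z.1.1 * z.2.1 + z.1.2 * z.2.2), z.2.1 ^ 2 + z.2.2 ^ 2)

/-- the Gram-Schmidt parametrisation of the matrices with given form -/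
noncomputable def gs (σ : ℝ) (y : (ℝ × ℝ) × (ℝ × ℝ)) : (ℝ × ℝ) × (ℝ × ℝ) :=
  ((√y.1.2 * Real.cos y.1.1, √y.1.2 * Real.sin y.1.1),
   ((y.2.1 / 2) / √y.1.2 * Real.cos y.1.1 - σ * (√(4 * y.1.2 * y.2.2 - y.2.1 ^ 2) / (2 * √y.1.2)) * Real.sin y.1.1,
    (y.2.1 / 2) / √y.1.2 * Real.sin y.1.1 + σ * (√(4 * y.1.2 * y.2.2 - y.2.1 ^ 2) / (2 * √y.1.2)) * Real.cos y.1.1))

theorem gs_differentiable (σ : ℝ) :
    DifferentiableOn ℝ (gs σ) {y | 0 < y.1.2 ∧ 0 < 4 * y.1.2 * y.2.2 - y.2.1 ^ 2} := by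
  rintro y ⟨h1, h2⟩
  apply DifferentiableAt.differentiableWithinAt
  have a0 : DifferentiableAt ℝ (fun y : (ℝ × ℝ) × (ℝ × ℝ) => y.1.1) y := by fun_prop
  have a1 : DifferentiableAt ℝ (fun y : (ℝ × ℝ) × (ℝ × ℝ) => y.1.2) y := by fun_prop
  have a2 : DifferentiableAt ℝ (fun y : (ℝ × ℝ) × (ℝ × ℝ) => y.2.1) y := by fun_prop
  have a3 : DifferentiableAt ℝ (fun y : (ℝ × ℝ) × (ℝ × ℝ) => y.2.2) y := by fun_prop
  have b1 : DifferentiableAt ℝ (fun y : (ℝ × ℝ) × (ℝ × ℝ) => √y.1.2) y := a1.sqrt h1.ne'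
  have b2 : DifferentiableAt ℝ
      (fun y : (ℝ × ℝ) × (ℝ × ℝ) => √(4 * y.1.2 * y.2.2 - y.2.1 ^ 2)) y := by
    refine DifferentiableAt.sqrt ?_ h2.ne'
    fun_prop
  have b3 : √y.1.2 ≠ 0 := (Real.sqrt_pos.2 h1).ne'
  have c1 : DifferentiableAt ℝ (fun y : (ℝ × ℝ) × (ℝ × ℝ) => Real.cos y.1.1) y := a0.cos
  have c2 : DifferentiableAt ℝ (fun y : (ℝ × ℝ) × (ℝ × ℝ) => Real.sin y.1.1) y := a0.sin
  have d1 : DifferentiableAt ℝ (fun y : (ℝ × ℝ) × (ℝ × ℝ) => (y.2.1 / 2) / √y.1.2) y := by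
    have e1 : DifferentiableAt ℝ (fun y : (ℝ × ℝ) × (ℝ × ℝ) => y.2.1 / 2) y := by fun_prop
    exact e1.fun_mul (b1.fun_inv b3)
  have d2 : DifferentiableAt ℝ (fun y : (ℝ × ℝ) × (ℝ × ℝ) =>
      √(4 * y.1.2 * y.2.2 - y.2.1 ^ 2) / (2 * √y.1.2)) y := by
    have e1 : DifferentiableAt ℝ (fun y : (ℝ × ℝ) × (ℝ × ℝ) => 2 * √y.1.2) y := b1.const_mul (2:ℝ)
    have e2 : 2 * √y.1.2 ≠ 0 := mul_ne_zero two_ne_zero b3
    exact b2.fun_mul (e1.fun_inv e2)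
  unfold gs
  exact ((b1.mul c1).prodMk (b1.mul c2)).prodMk
    (((d1.mul c1).sub ((d2.const_mul σ).mul c2)).prodMk
      ((d1.mul c2).add ((d2.const_mul σ).mul c1)))

theorem null_QF {N : Set (ℝ × ℝ × ℝ)} (hN : volume N = 0) :
    volume {z : (ℝ × ℝ) × (ℝ × ℝ) | z.1.1 * z.2.2 - z.1.2 * z.2.1 ≠ 0 ∧ QF z ∈ N} = 0 := by
  set D : Set ((ℝ × ℝ) × (ℝ × ℝ)) :=
    {y | 0 < y.1.2 ∧ 0 < 4 * y.1.2 * y.2.2 - y.2.1 ^ 2} with hD
  set S : Set ((ℝ × ℝ) × (ℝ × ℝ)) := {y | (y.1.2, y.2.1, y.2.2) ∈ N} with hS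
  have hS0 : volume S = 0 := by
    have q1 : Measure.QuasiMeasurePreserving
        (Prod.snd : ℝ × (ℝ × ℝ × ℝ) → ℝ × ℝ × ℝ) volume volume :=
      Measure.quasiMeasurePreserving_snd
    have q2 : MeasurePreserving (MeasurableEquiv.prodAssoc : (ℝ × ℝ) × (ℝ × ℝ) ≃ᵐ ℝ × (ℝ × (ℝ × ℝ)))
        volume volume := volume_preserving_prodAssoc
    have q3 := q1.comp q2.quasiMeasurePreserving
    exact q3.preimage_null hN
  have hH1 : (volume : Measure (ℝ × ℝ)).IsAddHaarMeasure := by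
    rw [Measure.volume_eq_prod]; infer_instance
  have hH2 : (volume : Measure ((ℝ × ℝ) × (ℝ × ℝ))).IsAddHaarMeasure := by
    rw [Measure.volume_eq_prod]
    exact Measure.prod.instIsAddHaarMeasure _ _
  have key : ∀ σ : ℝ, volume (gs σ '' (S ∩ D)) = 0 := by
    intro σ
    refine MeasureTheory.addHaar_image_eq_zero_of_differentiableOn_of_addHaar_eq_zero volume
      ((gs_differentiable σ).mono inter_subset_right) ?_
    exact measure_mono_null inter_subset_left hS0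
  refine measure_mono_null ?_ (measure_union_null (key 1) (key (-1)))
  rintro ⟨⟨a, b⟩, ⟨c, d⟩⟩ ⟨hdet, hQ⟩
  simp only at hdet
  have hpos : 0 < a ^ 2 + b ^ 2 := by
    rcases eq_or_ne a 0 with ha | ha
    · rcases eq_or_ne b 0 with hb | hb
      · exfalso; apply hdet; rw [ha, hb]; ring
      · positivity
    · positivity
  set q0 := a ^ 2 + b ^ 2 with hq0
  set q1 := 2 * (a * c + b * d) with hq1
  set q2 := c ^ 2 + d ^ 2 with hq2
  have hdisc : 4 * q0 * q2 - q1 ^ 2 = (2 * (a * d - b * c)) ^ 2 := by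
    rw [hq0, hq1, hq2]; ring
  have hsq : 0 < √q0 := Real.sqrt_pos.2 hpos
  have hsq2 : √q0 ^ 2 = q0 := Real.sq_sqrt hpos.le
  -- the angle
  obtain ⟨θ, hθ1, hθ2⟩ : ∃ θ : ℝ, a = √q0 * Real.cos θ ∧ b = √q0 * Real.sin θ := by
    refine ⟨Complex.arg ⟨a, b⟩, ?_, ?_⟩
    · have h1 : ‖(⟨a, b⟩ : ℂ)‖ = √q0 := by
        rw [Complex.norm_def, Complex.normSq_mk, hq0]; congr 1; ring
      have h2 := Complex.norm_mul_cos_arg (⟨a, b⟩ : ℂ)
      rw [h1] at h2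
      exact h2.symm
    · have h1 : ‖(⟨a, b⟩ : ℂ)‖ = √q0 := by
        rw [Complex.norm_def, Complex.normSq_mk, hq0]; congr 1; ring
      have h2 := Complex.norm_mul_sin_arg (⟨a, b⟩ : ℂ)
      rw [h1] at h2
      exact h2.symm
  have hcs := Real.cos_sq_add_sin_sq θ
  have hc : Real.cos θ = a / √q0 := by rw [hθ1]; field_simp
  have hs : Real.sin θ = b / √q0 := by rw [hθ2]; field_simp
  have hmem : ((θ, q0), (q1, q2)) ∈ S ∩ D := by
    refine ⟨hQ, hpos, ?_⟩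
    show 0 < 4 * q0 * q2 - q1 ^ 2
    rw [hdisc]
    have : 2 * (a * d - b * c) ≠ 0 := mul_ne_zero two_ne_zero hdet
    positivity
  have hval : ∀ σ : ℝ, σ * |2 * (a * d - b * c)| = 2 * (a * d - b * c) →
      gs σ ((θ, q0), (q1, q2)) = ((a, b), (c, d)) := by
    intro σ hσ
    have e1 : √(4 * q0 * q2 - q1 ^ 2) = |2 * (a * d - b * c)| := by
      rw [hdisc]; exact Real.sqrt_sq_eq_abs _
    simp only [gs, e1, hc, hs, Prod.mk.injEq]
    have e2 : σ * (|2 * (a * d - b * c)| / (2 * √q0)) = (a * d - b * c) / √q0 := by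
      rw [← mul_div_assoc, hσ]; field_simp
    rw [e2]
    refine ⟨⟨by field_simp, by field_simp⟩, ?_, ?_⟩
    · have : (q1 / 2) / √q0 * (a / √q0) - (a * d - b * c) / √q0 * (b / √q0)
          = ((q1 / 2) * a - (a * d - b * c) * b) / (√q0 ^ 2) := by field_simp
      rw [this, hsq2, hq1, hq0]
      rw [div_eq_iff (by rw [← hq0]; exact hpos.ne')]; ring
    · have : (q1 / 2) / √q0 * (b / √q0) + (a * d - b * c) / √q0 * (a / √q0)
          = ((q1 / 2) * b + (a * d - b * c) * a) / (√q0 ^ 2) := by field_simp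
      rw [this, hsq2, hq1, hq0]
      rw [div_eq_iff (by rw [← hq0]; exact hpos.ne')]; ring
  rcases le_or_gt 0 (2 * (a * d - b * c)) with h | h
  · exact Or.inl ⟨_, hmem, hval 1 (by rw [abs_of_nonneg h, one_mul])⟩
  · exact Or.inr ⟨_, hmem, hval (-1) (by rw [abs_of_neg h]; ring)⟩

end Pool.Agent.CRP.H90
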