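import Pool.Agent.Helper90_CRP.Geo3

namespace Pool.Agent.CRP.H90

open MeasureTheory Filter Topology Set Pool.Agent.CRP

/-- null sets: from directions to slopes, version with two vectors -/
theorem null_slopes' (U V : ℝ × ℝ) (hdet : U.1 * V.2 - U.2 * V.1 ≠ 0) {N : Set ℝ}
    (hN : volume N = 0) :
    volume {x : ℝ | ∃ θ ∈ N, ∃ r : ℝ, 0 < r ∧ (Real.cos θ, Real.sin θ) = r • (U + x • V)} = 0 := by
  set F : ℝ → ℝ := fun θ =>
    -(Real.cos θ * U.2 - Real.sin θ * U.1) / (Real.cos θ * V.2 - Real.sin θ * V.1) with hF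
  set S : Set ℝ := N ∩ {θ | Real.cos θ * V.2 - Real.sin θ * V.1 ≠ 0} with hS
  have hSn : volume S = 0 := measure_mono_null inter_subset_left hN
  have hd : DifferentiableOn ℝ F S := by
    intro θ hθ
    have h3 : DifferentiableAt ℝ F θ := by
      refine DifferentiableAt.fun_div ?_ ?_ hθ.2
      · fun_prop
      · fun_prop
    exact h3.differentiableWithinAt
  have h0 := MeasureTheory.addHaar_image_eq_zero_of_differentiableOn_of_addHaar_eq_zero volume hd hSn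
  refine measure_mono_null ?_ h0
  rintro x ⟨θ, hθ, r, hr, he⟩
  have h1 : Real.cos θ = r * (U.1 + x * V.1) := congrArg Prod.fst he
  have h2 : Real.sin θ = r * (U.2 + x * V.2) := congrArg Prod.snd he
  have h3 : Real.cos θ * V.2 - Real.sin θ * V.1 = r * (U.1 * V.2 - U.2 * V.1) := by
    rw [h1, h2]; ring
  have h4 : Real.cos θ * V.2 - Real.sin θ * V.1 ≠ 0 := by
    rw [h3]; exact mul_ne_zero hr.ne' hdet
  refine ⟨θ, ⟨hθ, h4⟩, ?_⟩
  show -(Real.cos θ * U.2 - Real.sin θ * U.1) / (Real.cos θ * V.2 - Real.sin θ * V.1) = x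
  rw [div_eq_iff h4, h3, h1, h2]; ring

/-- directions near a given one -/
theorem cone_nhds {α β : ℝ} (h : α < β) :
    {y : ℝ × ℝ | ∃ θ ∈ Ioo α β, ∃ r : ℝ, 0 < r ∧ (Real.cos θ, Real.sin θ) = r • y} ∈
      𝓝 (Real.cos ((α + β) / 2), Real.sin ((α + β) / 2)) := by
  set τ := (α + β) / 2 with hτ
  have hcs := Real.cos_sq_add_sin_sq τ
  have c1 : ContinuousAt (fun y : ℝ × ℝ => y.1 * Real.cos τ + y.2 * Real.sin τ)
      (Real.cos τ, Real.sin τ) := by fun_prop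
  have v1 : (Real.cos τ) * Real.cos τ + (Real.sin τ) * Real.sin τ = 1 := by nlinarith
  have hpos : ∀ᶠ y : ℝ × ℝ in 𝓝 (Real.cos τ, Real.sin τ),
      0 < y.1 * Real.cos τ + y.2 * Real.sin τ := by
    refine c1.eventually (lt_mem_nhds ?_)
    show (0:ℝ) < (Real.cos τ) * Real.cos τ + (Real.sin τ) * Real.sin τ
    rw [v1]; norm_num
  have c2 : ContinuousAt (fun y : ℝ × ℝ => Real.arctan
      ((y.2 * Real.cos τ - y.1 * Real.sin τ) / (y.1 * Real.cos τ + y.2 * Real.sin τ)))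
      (Real.cos τ, Real.sin τ) := by
    refine Real.continuous_arctan.continuousAt.comp ?_
    refine ContinuousAt.div ?_ c1 ?_
    · fun_prop
    · show (Real.cos τ) * Real.cos τ + (Real.sin τ) * Real.sin τ ≠ 0
      rw [v1]; norm_num
  have hsm : ∀ᶠ y : ℝ × ℝ in 𝓝 (Real.cos τ, Real.sin τ), |Real.arctan
      ((y.2 * Real.cos τ - y.1 * Real.sin τ) / (y.1 * Real.cos τ + y.2 * Real.sin τ))|
        < (β - α) / 2 := by
    refine (c2.abs).eventually (gt_mem_nhds ?_)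
    show |Real.arctan ((Real.sin τ * Real.cos τ - Real.cos τ * Real.sin τ) /
      (Real.cos τ * Real.cos τ + Real.sin τ * Real.sin τ))| < (β - α) / 2
    have : Real.sin τ * Real.cos τ - Real.cos τ * Real.sin τ = 0 := by ring
    rw [this, zero_div, Real.arctan_zero, abs_zero]; linarith
  filter_upwards [hpos, hsm] with y hy1 hy2
  set a := y.1 * Real.cos τ + y.2 * Real.sin τ with ha
  set b := y.2 * Real.cos τ - y.1 * Real.sin τ with hb
  have hya : y.1 = a * Real.cos τ - b * Real.sin τ := by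
    rw [ha, hb]; linear_combination (-y.1) * hcs
  have hyb : y.2 = a * Real.sin τ + b * Real.cos τ := by
    rw [ha, hb]; linear_combination (-y.2) * hcs
  rw [abs_lt] at hy2
  refine ⟨τ + Real.arctan (b / a), ⟨by rw [hτ]; linarith [hy2.1], by rw [hτ]; linarith [hy2.2]⟩,
    1 / (a * √(1 + (b / a) ^ 2)), by positivity, ?_⟩
  have hsq : 0 < √(1 + (b / a) ^ 2) := by positivity
  ext
  · show Real.cos (τ + Real.arctan (b / a)) = 1 / (a * √(1 + (b / a) ^ 2)) * y.1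
    rw [Real.cos_add, Real.cos_arctan, Real.sin_arctan, hya]
    field_simp
  · show Real.sin (τ + Real.arctan (b / a)) = 1 / (a * √(1 + (b / a) ^ 2)) * y.2
    rw [Real.sin_add, Real.cos_arctan, Real.sin_arctan, hyb]
    field_simp

/-- rational frames inside a cone -/
theorem exists_frame (g : (ℝ × ℝ) ≃L[ℝ] (ℝ × ℝ)) {α β : ℝ} (h : α < β) :
    ∃ w : (ℚ × ℚ) × (ℚ × ℚ),
      (w.1.1 : ℝ) * w.2.2 - w.1.2 * w.2.1 ≠ 0 ∧
      ∀ x ∈ Icc (-1:ℝ) 1, ∃ θ ∈ Ioo α β, ∃ r : ℝ, 0 < r ∧ (Real.cos θ, Real.sin θ) =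
        r • (g ((w.1.1 : ℝ), (w.1.2 : ℝ)) + x • g ((w.2.1 : ℝ), (w.2.2 : ℝ))) := by
  obtain ⟨δ, hδ, hball⟩ := Metric.mem_nhds_iff.1 (cone_nhds h)
  set τ := (α + β) / 2 with hτ
  set eτ : ℝ × ℝ := (Real.cos τ, Real.sin τ) with heτ
  have heτ0 : eτ ≠ 0 := by
    intro h0
    have h1 : Real.cos τ = 0 := congrArg Prod.fst h0
    have h2 : Real.sin τ = 0 := congrArg Prod.snd h0
    have := Real.cos_sq_add_sin_sq τ
    rw [h1, h2] at this; norm_num at this
  have hdense : DenseRange (Prod.map (Rat.cast : ℚ → ℝ) (Rat.cast : ℚ → ℝ)) :=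
    Rat.denseRange_cast.prodMap Rat.denseRange_cast
  -- the first vector
  have hop1 : IsOpen {e : ℝ × ℝ | ‖g e - eτ‖ < δ / 2 ∧ e ≠ 0} := by
    have hcont : Continuous (fun e : ℝ × ℝ => ‖g e - eτ‖) := by fun_prop
    exact (isOpen_lt hcont continuous_const).inter isOpen_ne
  obtain ⟨e, he1, he2⟩ := hdense.exists_mem_open hop1 ⟨g.symm eτ, by
    refine ⟨by simpa using (by positivity : 0 < δ / 2), ?_⟩
    intro h0
    exact heτ0 (g.symm.injective (by rw [h0, map_zero]))⟩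
  set E : ℝ × ℝ := Prod.map (Rat.cast : ℚ → ℝ) (Rat.cast : ℚ → ℝ) e with hE
  -- the second vector
  have hop2 : IsOpen {f : ℝ × ℝ | ‖g f‖ < δ / 2 ∧ E.1 * f.2 - E.2 * f.1 ≠ 0} := by
    have hcont : Continuous (fun f : ℝ × ℝ => ‖g f‖) := by fun_prop
    have hcont2 : Continuous (fun f : ℝ × ℝ => E.1 * f.2 - E.2 * f.1) := by fun_prop
    exact (isOpen_lt hcont continuous_const).inter (isOpen_ne_fun hcont2 continuous_const)
  have hne : ∃ f : ℝ × ℝ, f ∈ {f : ℝ × ℝ | ‖g f‖ < δ / 2 ∧ E.1 * f.2 - E.2 * f.1 ≠ 0} := by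
    have hlim : Tendsto (fun s : ℝ => ‖g (s • ((-E.2, E.1) : ℝ × ℝ))‖) (𝓝[>] 0) (𝓝 0) := by
      have : ContinuousAt (fun s : ℝ => ‖g (s • ((-E.2, E.1) : ℝ × ℝ))‖) 0 := by fun_prop
      have h1 := this.tendsto
      simp only [zero_smul, map_zero, norm_zero] at h1
      exact h1.mono_left nhdsWithin_le_nhds
    have h2 := (hlim.eventually (gt_mem_nhds (show (0:ℝ) < δ / 2 by positivity))).and
      self_mem_nhdsWithin
    obtain ⟨s, hs1, hs2⟩ := h2.exists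
    refine ⟨s • ((-E.2, E.1) : ℝ × ℝ), hs1, ?_⟩
    have hs3 : 0 < s := hs2
    show E.1 * (s * E.1) - E.2 * (s * (-E.2)) ≠ 0
    have h3 : E.1 * (s * E.1) - E.2 * (s * (-E.2)) = s * (E.1 ^ 2 + E.2 ^ 2) := by ring
    rw [h3]
    refine mul_ne_zero hs3.ne' ?_
    intro h4
    apply he2
    have h5 : E.1 = 0 := by nlinarith [sq_nonneg E.1, sq_nonneg E.2]
    have h6 : E.2 = 0 := by nlinarith [sq_nonneg E.1, sq_nonneg E.2]
    exact Prod.ext h5 h6
  obtain ⟨f, hf1, hf2⟩ := hdense.exists_mem_open hop2 hne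
  set G : ℝ × ℝ := Prod.map (Rat.cast : ℚ → ℝ) (Rat.cast : ℚ → ℝ) f with hG
  refine ⟨(e, f), hf2, ?_⟩
  intro x hx
  have h7 : g E + x • g G ∈ Metric.ball eτ δ := by
    rw [Metric.mem_ball, dist_eq_norm]
    have h8 : g E + x • g G - eτ = (g E - eτ) + x • g G := by abel
    rw [h8]
    have h9 : ‖x • g G‖ ≤ ‖g G‖ := by
      rw [norm_smul, Real.norm_eq_abs]
      have : |x| ≤ 1 := abs_le.2 hx
      nlinarith [norm_nonneg (g G)]
    calc _ ≤ ‖g E - eτ‖ + ‖x • g G‖ := norm_add_le _ _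
      _ < δ := by linarith
  exact hball h7

end Pool.Agent.CRP.H90
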