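import Pool.Agent.Helper90_CRP.AePoint

namespace Pool.Agent.CRP.H90

open MeasureTheory Filter Topology Set Pool.Agent.CRP

/-- The homeomorphism `h` is an isomorphism of translation surfaces: in the charts it is locally a
translation. -/
def IsTranslationIso {M M' : Type*} [TopologicalSpace M] [TopologicalSpace M'] (A : TransAtlas M)
    (A' : TransAtlas M') (h : M ≃ₜ M') : Prop :=
  ∀ φ ∈ A.charts, ∀ ψ ∈ A'.charts, ∀ q : M, q ∈ φ.source → h q ∈ ψ.source →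
    ∃ c : ℝ × ℝ, ∀ᶠ q' in 𝓝 q, ψ (h q') = φ q' + c

theorem IsTranslationIso.symm {M M' : Type*} [TopologicalSpace M] [TopologicalSpace M']
    {A : TransAtlas M} {A' : TransAtlas M'} {h : M ≃ₜ M'} (H : IsTranslationIso A A' h) :
    IsTranslationIso A' A h.symm := by
  intro ψ hψ φ hφ q hq1 hq2
  obtain ⟨c, hc⟩ := H φ hφ ψ hψ (h.symm q) hq2 (by simpa using hq1)
  refine ⟨-c, ?_⟩
  have h1 : Tendsto h.symm (𝓝 q) (𝓝 (h.symm q)) := h.symm.continuous.continuousAt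
  filter_upwards [h1.eventually hc] with y hy
  rw [h.apply_symm_apply] at hy
  rw [hy]; abel

theorem IsTranslationIso.straight {M M' : Type*} [TopologicalSpace M] [TopologicalSpace M']
    {A : TransAtlas M} {A' : TransAtlas M'} {h : M ≃ₜ M'} (H : IsTranslationIso A A' h)
    {v : ℝ × ℝ} {I : Set ℝ} {c : ℝ → M} (hc : Straight A v I c) : Straight A' v I (h ∘ c) := by
  intro s hs ψ hψ hsψ
  obtain ⟨φ, hφ, hsφ⟩ := A.cover (c s)
  obtain ⟨c₀, hc₀⟩ := H φ hφ ψ hψ (c s) hsφ hsψ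
  have h1 := hc s hs φ hφ hsφ
  have h2 : Tendsto c (𝓝[I] s) (𝓝 (c s)) := (straight_continuousOn hc) s hs
  have h3 : ∀ᶠ y in 𝓝 (c s), h y ∈ ψ.source :=
    h.continuous.continuousAt.eventually (ψ.open_source.mem_nhds hsψ)
  filter_upwards [h1, h2.eventually hc₀, h2.eventually h3] with s' a1 a2 a3
  refine ⟨a3, ?_⟩
  have h4 : ψ (h (c s)) = φ (c s) + c₀ := hc₀.self_of_nhds
  show ψ (h (c s')) = ψ (h (c s)) + (s' - s) • v
  rw [a2, h4, a1.2]; abel

theorem IsTranslationIso.commonReturn {M M' : Type*} [TopologicalSpace M] [TopologicalSpace M']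
    {A : TransAtlas M} {A' : TransAtlas M'} {h : M ≃ₜ M'} (H : IsTranslationIso A A' h) {p : M}
    (hp : CommonReturn A p) : CommonReturn A' (h p) := by
  obtain ⟨t, ht, hae⟩ := hp
  refine ⟨t, ht, hae.mono ?_⟩
  rintro θ ⟨c, hc0, hc, hcl⟩
  refine ⟨h ∘ c, by simp [hc0], H.straight hc, ?_⟩
  exact (h.continuous.tendsto p).comp hcl

/-- the action of a matrix on period coordinates -/
def zact {n : ℕ} (z : (ℝ × ℝ) × (ℝ × ℝ)) (w : Fin n → ℝ × ℝ) : Fin n → ℝ × ℝ :=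
  fun i => (w i).1 • z.1 + (w i).2 • z.2

theorem continuous_zact {n : ℕ} :
    Continuous (fun x : ((ℝ × ℝ) × (ℝ × ℝ)) × (Fin n → ℝ × ℝ) => zact x.1 x.2) := by
  unfold zact; fun_prop

theorem zact_eq {n : ℕ} {g : (ℝ × ℝ) ≃L[ℝ] (ℝ × ℝ)} {z : (ℝ × ℝ) × (ℝ × ℝ)} (h1 : g (1, 0) = z.1)
    (h2 : g (0, 1) = z.2) (w : Fin n → ℝ × ℝ) : zact z w = fun i => g (w i) := by
  funext i
  rw [apply_eq h1 h2]; rfl

theorem null_image {n : ℕ} (g : (ℝ × ℝ) ≃L[ℝ] (ℝ × ℝ)) {N : Set (Fin n → ℝ × ℝ)}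
    (hN : volume N = 0) : volume ((fun (w : Fin n → ℝ × ℝ) i => g (w i)) '' N) = 0 := by
  have hH1 : (volume : Measure (ℝ × ℝ)).IsAddHaarMeasure := by
    rw [Measure.volume_eq_prod]; infer_instance
  have hH2 : (volume : Measure (Fin n → ℝ × ℝ)).IsAddHaarMeasure := by
    rw [volume_pi]; infer_instance
  refine MeasureTheory.addHaar_image_eq_zero_of_differentiableOn_of_addHaar_eq_zero volume ?_ hN
  have : Differentiable ℝ (fun (w : Fin n → ℝ × ℝ) i => g (w i)) := by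
    refine differentiable_pi.2 fun i => ?_
    exact g.differentiable.comp (differentiable_apply i)
  exact this.differentiableOn

/-- **Period coordinates.**  `Ω` is an open set of period coordinates; for `w ∈ Ω` let `M w` be a
surface with translation atlas `A w` and marked point `p w`, such that the surface at `g · w` is
the `g`-deformation of the surface at `w` for `g` near the identity.  Then the parameters whose
marked point is a common return point form a null set. -/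
theorem period (an : AnStmt) {n : ℕ} {Ω : Set (Fin n → ℝ × ℝ)} (hΩ : IsOpen Ω)
    {V : Set ((ℝ × ℝ) × (ℝ × ℝ))} (hV : V ∈ 𝓝 (((1:ℝ), (0:ℝ)), ((0:ℝ), (1:ℝ))))
    (M : (Fin n → ℝ × ℝ) → Type*) [∀ w, TopologicalSpace (M w)] [∀ w, T2Space (M w)]
    [∀ w, SecondCountableTopology (M w)] (A : ∀ w, TransAtlas (M w)) (p : ∀ w, M w)
    (heq : ∀ g : (ℝ × ℝ) ≃L[ℝ] (ℝ × ℝ), (g (1, 0), g (0, 1)) ∈ V → ∀ w ∈ Ω,
      (fun i => g (w i)) ∈ Ω → ∃ h : M w ≃ₜ M (fun i => g (w i)),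
        h (p w) = p (fun i => g (w i)) ∧ IsTranslationIso ((A w).deform g) (A (fun i => g (w i))) h)
    (hS : NullMeasurableSet {w | w ∈ Ω ∧ CommonReturn (A w) (p w)}) :
    volume {w | w ∈ Ω ∧ CommonReturn (A w) (p w)} = 0 := by
  obtain ⟨T, hTS, hTm, hTae⟩ := hS.exists_measurable_subset_ae_eq
  rw [← measure_congr hTae]
  obtain ⟨V', hV'V, hV'o, hV'1⟩ := mem_nhds_iff.1 hV
  -- Fubini
  have hm : MeasurableSet {x : (Fin n → ℝ × ℝ) × ((ℝ × ℝ) × (ℝ × ℝ)) |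
      ¬ (x.2 ∈ V' ∧ dt x.2 ≠ 0 ∧ x.1 ∈ Ω ∧ zact x.2 x.1 ∈ T)} := by
    refine MeasurableSet.compl ?_
    refine MeasurableSet.inter ?_ (MeasurableSet.inter ?_ (MeasurableSet.inter ?_ ?_))
    · exact (hV'o.preimage continuous_snd).measurableSet
    · exact (isOpen_ne_fun (continuous_dt.comp continuous_snd) continuous_const).measurableSet
    · exact (hΩ.preimage continuous_fst).measurableSet
    · exact (continuous_zact.comp continuous_swap).measurable hTm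
  have h1 : ∀ᵐ w : Fin n → ℝ × ℝ, ∀ᵐ z : (ℝ × ℝ) × (ℝ × ℝ),
      ¬ (z ∈ V' ∧ dt z ≠ 0 ∧ w ∈ Ω ∧ zact z w ∈ T) := by
    refine Eventually.of_forall fun w => ?_
    filter_upwards [main_commonReturn an (A w) (p w)] with z hz hcon
    obtain ⟨hzV, hD, hwΩ, hzT⟩ := hcon
    obtain ⟨g, hg1, hg2⟩ := exists_equiv z hD
    have h2 := hTS hzT
    rw [zact_eq hg1 hg2] at h2
    obtain ⟨h3, h4⟩ := h2
    obtain ⟨h, hp, hiso⟩ := heq g (by rw [hg1, hg2]; exact hV'V hzV) w hwΩ h3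
    have h5 := hiso.symm.commonReturn h4
    rw [← hp, h.symm_apply_apply] at h5
    exact hz g hg1 hg2 h5
  have h2 : ∀ᵐ z : (ℝ × ℝ) × (ℝ × ℝ), ∀ᵐ w : Fin n → ℝ × ℝ,
      ¬ (z ∈ V' ∧ dt z ≠ 0 ∧ w ∈ Ω ∧ zact z w ∈ T) :=
    (Measure.ae_ae_comm (p := fun w z => ¬ (z ∈ V' ∧ dt z ≠ 0 ∧ w ∈ Ω ∧ zact z w ∈ T)) hm).1 h1
  -- a sequence of good matrices
  set one : (ℝ × ℝ) × (ℝ × ℝ) := (((1:ℝ), (0:ℝ)), ((0:ℝ), (1:ℝ))) with hone
  have hd1 : dt one = 1 := by
    show (1:ℝ) * 1 - 0 * 0 = 1; norm_num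
  have hne : ∀ j : ℕ, ∃ z : (ℝ × ℝ) × (ℝ × ℝ), dist z one < 1 / ((j:ℝ) + 1) ∧ z ∈ V' ∧ dt z ≠ 0 ∧
      ∀ᵐ w : Fin n → ℝ × ℝ, ¬ (z ∈ V' ∧ dt z ≠ 0 ∧ w ∈ Ω ∧ zact z w ∈ T) := by
    intro j
    by_contra hcon
    push Not at hcon
    set B := Metric.ball one (1 / ((j:ℝ) + 1)) ∩ (V' ∩ {z | dt z ≠ 0}) with hB
    have hBo : IsOpen B := Metric.isOpen_ball.inter
      (hV'o.inter (isOpen_ne_fun continuous_dt continuous_const))
    have hB1 : one ∈ B := ⟨Metric.mem_ball_self (by positivity), hV'1, by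
      show dt one ≠ 0
      rw [hd1]; norm_num⟩
    have h3 : volume B = 0 := by
      refine measure_mono_null ?_ (ae_iff.1 h2)
      rintro z ⟨hz1, hz2, hz3⟩
      exact fun h => hcon z hz1 hz2 hz3 h
    have h5 := hBo.measure_eq_zero_iff volume |>.1 h3
    rw [h5] at hB1
    exact hB1
  choose z hz1 hz2 hz3 hz4 using hne
  have hlim : Tendsto z atTop (𝓝 one) := by
    rw [tendsto_iff_dist_tendsto_zero]
    refine squeeze_zero (fun j => dist_nonneg) (fun j => (hz1 j).le) ?_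
    exact tendsto_one_div_add_atTop_nhds_zero_nat
  have hcover : T ⊆ ⋃ j, zact (z j) '' {w | w ∈ Ω ∧ zact (z j) w ∈ T} := by
    intro w hw
    have hwΩ : w ∈ Ω := (hTS hw).1
    have hcont : ContinuousAt (fun z : (ℝ × ℝ) × (ℝ × ℝ) => (fun i => inv2 z (w i) : Fin n → ℝ × ℝ))
        one := by
      refine continuousAt_pi.2 fun i => ?_
      unfold inv2
      have hd : ContinuousAt dt one := continuous_dt.continuousAt
      have hd0 : dt one ≠ 0 := by rw [hd1]; norm_num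
      have e1 : ContinuousAt (fun z : (ℝ × ℝ) × (ℝ × ℝ) => z.2.2 * (w i).1 - z.2.1 * (w i).2) one := by
        fun_prop
      have e2 : ContinuousAt (fun z : (ℝ × ℝ) × (ℝ × ℝ) => z.1.1 * (w i).2 - z.1.2 * (w i).1) one := by
        fun_prop
      exact (e1.div hd hd0).prodMk (e2.div hd hd0)
    have hval : (fun i => inv2 one (w i) : Fin n → ℝ × ℝ) = w := by
      funext i
      show ((1 * (w i).1 - 0 * (w i).2) / dt one, (1 * (w i).2 - 0 * (w i).1) / dt one) = w i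
      rw [hd1]
      ext <;> simp
    have hev : ∀ᶠ z' in 𝓝 one, (fun i => inv2 z' (w i) : Fin n → ℝ × ℝ) ∈ Ω := by
      refine hcont.eventually (hΩ.mem_nhds ?_)
      show (fun i => inv2 one (w i) : Fin n → ℝ × ℝ) ∈ Ω
      rw [hval]; exact hwΩ
    obtain ⟨j, hj⟩ := (hlim.eventually hev).exists
    obtain ⟨g, hg1, hg2⟩ := exists_equiv (z j) (hz3 j)
    have hinv : zact (z j) (fun i => inv2 (z j) (w i)) = w := by
      rw [zact_eq hg1 hg2]
      funext i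
      rw [← symm_eq hg1 hg2 (hz3 j), g.apply_symm_apply]
    exact mem_iUnion.2 ⟨j, _, ⟨hj, by rw [hinv]; exact hw⟩, hinv⟩
  refine measure_mono_null hcover ?_
  rw [measure_iUnion_null_iff]
  intro j
  obtain ⟨g, hg1, hg2⟩ := exists_equiv (z j) (hz3 j)
  have h3 : volume {w | w ∈ Ω ∧ zact (z j) w ∈ T} = 0 := by
    refine measure_mono_null ?_ (ae_iff.1 (hz4 j))
    rintro w ⟨hw1, hw2⟩
    exact fun h => h ⟨hz2 j, hz3 j, hw1, hw2⟩
  have h4 : zact (z j) = (fun (w : Fin n → ℝ × ℝ) i => g (w i)) := by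
    funext w
    exact zact_eq hg1 hg2 w
  have h5 := null_image g h3
  rw [← h4] at h5
  exact h5

end Pool.Agent.CRP.H90
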