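import Pool.Agent.Helper90_CRP.AePoint2

/-!
# MP_46529f_an: no common return, for almost every deformation and almost every point

Draft of the hand-in; `an : AnStmt` is the analytic half (squad CRT).
-/

namespace Pool.Agent.CRP.H90.Draft

open MeasureTheory Filter Topology Set Pool.Agent.CRP

/-- Let `M` be a surface with a translation atlas `A` (for a translation surface `(X, ω)`: `M` is
`X` without the zeros of `ω`), `ν` a measure on `M`.  For Lebesgue almost every `g ∈ GL₂(ℝ)`
(given by its columns `z.1`, `z.2`) and `ν`-almost every point `p` (`ν = δ_p`: any given point),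
`p` is not a common return point of the deformed surface `g · M`; even more, for every point `q`
and every interval `(α, β)` of directions there are a neighbourhood `U` of `q` and `η > 0` such that
for all large `t` the directions `θ ∈ (α, β)` with `F_θ^t (p) ∈ U` have measure `≤ β - α - η`. -/
theorem result (an : AnStmt) {M : Type*} [TopologicalSpace M] [T2Space M]
    [SecondCountableTopology M] [MeasurableSpace M] [BorelSpace M] (A : TransAtlas M)
    (ν : Measure M) [SFinite ν] :
    ∀ᵐ z : (ℝ × ℝ) × (ℝ × ℝ), ∀ g : (ℝ × ℝ) ≃L[ℝ] (ℝ × ℝ), g (1, 0) = z.1 → g (0, 1) = z.2 →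
      ∀ᵐ p ∂ν, ¬ CommonReturn (A.deform g) p ∧
        ∀ (q : M) (α β : ℝ), α < β → ∃ U ∈ 𝓝 q, ∃ η > 0, ∃ T : ℝ, ∀ t ≥ T,
          volume {θ : ℝ | θ ∈ Ioo α β ∧ ∃ c : ℝ → M, c 0 = p ∧
            Straight (A.deform g) (Real.cos θ, Real.sin θ) (Icc 0 t) c ∧ c t ∈ U}
              ≤ ENNReal.ofReal (β - α - η) :=
  H90.main_final an A ν

end Pool.Agent.CRP.H90.Draft
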